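import Pool.Agent.Helper87.RAM.Asym

/-!
Extensions of Hardy fields: fractions, derivatives of polynomial expressions, pointwise
evaluation of polynomials over a Hardy field.
-/

open Filter Topology Polynomial

namespace Pool.Agent.Helper87.RAM

variable {K L : Subring 𝓖}

/-! ### derivatives -/

theorem HasDer.mono {f : 𝓖} (h : HasDer f K) (hKL : K ≤ L) : HasDer f L := by
  obtain ⟨F, F', h1, h2, h3⟩ := h
  exact ⟨F, F', h1, hKL h2, h3⟩

theorem HasDer.add {f g : 𝓖} (hf : HasDer f L) (hg : HasDer g L) : HasDer (f + g) L := by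
  obtain ⟨F, F', rfl, h2, h3⟩ := hf
  obtain ⟨G, G', rfl, h5, h6⟩ := hg
  exact ⟨fun t => F t + G t, fun t => F' t + G' t, rfl, add_mem' h2 h5,
    by filter_upwards [h3, h6] with t h7 h8 using h7.add h8⟩

theorem HasDer.mul {f g : 𝓖} (hf : HasDer f L) (hg : HasDer g L) (hfL : f ∈ L) (hgL : g ∈ L) :
    HasDer (f * g) L := by
  obtain ⟨F, F', rfl, h2, h3⟩ := hf
  obtain ⟨G, G', rfl, h5, h6⟩ := hg
  exact ⟨fun t => F t * G t, fun t => F' t * G t + F t * G' t, rfl,
    add_mem' (mul_mem' h2 hgL) (mul_mem' hfL h5),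
    by filter_upwards [h3, h6] with t h7 h8 using h7.mul h8⟩

theorem HasDer.pow {f : 𝓖} (hf : HasDer f L) (hfL : f ∈ L) (n : ℕ) : HasDer (f ^ n) L := by
  induction n with
  | zero =>
    refine ⟨fun _ => 1, fun _ => 0, by rw [pow_zero]; rfl, L.zero_mem,
      Eventually.of_forall fun t => ?_⟩
    exact hasDerivAt_const t 1
  | succ n ih => rw [pow_succ]; exact ih.mul hf (L.pow_mem hfL n) hfL

theorem HasDer.inv {f u : 𝓖} (hf : HasDer f L) (hfu : f * u = 1) (huL : u ∈ L) : HasDer u L := by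
  obtain ⟨F, F', rfl, h2, h3⟩ := hf
  induction u using Germ.inductionOn with
  | h U =>
    have h1 : (fun t => F t * U t) =ᶠ[atTop] fun _ => 1 := by
      rw [← gm_eq, gm_mul, gm_one]; exact hfu
    have hU : U =ᶠ[atTop] fun t => (F t)⁻¹ := by
      filter_upwards [h1] with t ht
      exact (inv_eq_of_mul_eq_one_right ht).symm
    refine ⟨fun t => (F t)⁻¹, fun t => - F' t * (U t) ^ 2, gm_eq.2 hU,
      mul_mem' (neg_mem' h2) (pow_mem' huL 2), ?_⟩
    filter_upwards [h1, hU, h3] with t h4 h5 h6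
    have h7 : F t ≠ 0 := by
      intro h0; rw [h0, zero_mul] at h4; exact zero_ne_one h4
    refine (h6.inv h7).congr_deriv ?_
    rw [h5, inv_pow, div_eq_mul_inv]

theorem hasDer_aeval (hK : IsHardy K) (hKL : K ≤ L) {y : 𝓖} (hy : y ∈ L) (hd : HasDer y L)
    (p : K[X]) : HasDer (aeval y p) L ∧ aeval y p ∈ L := by
  induction p using Polynomial.induction_on' with
  | add p q hp hq =>
    rw [map_add]
    exact ⟨hp.1.add hq.1, L.add_mem hp.2 hq.2⟩
  | monomial n a =>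
    rw [aeval_monomial]
    have h1 : (algebraMap K 𝓖) a = (a : 𝓖) := rfl
    rw [h1]
    exact ⟨((hK.der _ a.2).mono hKL).mul (hd.pow hy n) (hKL a.2) (L.pow_mem hy n),
      L.mul_mem (hKL a.2) (L.pow_mem hy n)⟩

/-! ### fractions -/

/-- fractions of elements of `A` with invertible denominators -/
def Frac (A : Subring 𝓖) : Subring 𝓖 where
  carrier := {x | ∃ c ∈ A, IsUnit c ∧ x * c ∈ A}
  mul_mem' := by
    rintro x y ⟨c, hc, hcu, hxc⟩ ⟨d, hd, hdu, hyd⟩
    refine ⟨c * d, A.mul_mem hc hd, hcu.mul hdu, ?_⟩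
    have : x * y * (c * d) = (x * c) * (y * d) := by ring
    rw [this]; exact A.mul_mem hxc hyd
  one_mem' := ⟨1, A.one_mem, isUnit_one, by rw [mul_one]; exact A.one_mem⟩
  add_mem' := by
    rintro x y ⟨c, hc, hcu, hxc⟩ ⟨d, hd, hdu, hyd⟩
    refine ⟨c * d, A.mul_mem hc hd, hcu.mul hdu, ?_⟩
    have : (x + y) * (c * d) = (x * c) * d + (y * d) * c := by ring
    rw [this]; exact A.add_mem (A.mul_mem hxc hd) (A.mul_mem hyd hc)
  zero_mem' := ⟨1, A.one_mem, isUnit_one, by rw [mul_one]; exact A.zero_mem⟩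
  neg_mem' := by
    rintro x ⟨c, hc, hcu, hxc⟩
    refine ⟨c, hc, hcu, ?_⟩
    rw [neg_mul]; exact A.neg_mem hxc

theorem mem_frac {A : Subring 𝓖} {x : 𝓖} : x ∈ Frac A ↔ ∃ c ∈ A, IsUnit c ∧ x * c ∈ A := Iff.rfl

theorem le_frac (A : Subring 𝓖) : A ≤ Frac A := fun a ha =>
  ⟨1, A.one_mem, isUnit_one, by rw [mul_one]; exact ha⟩

theorem frac_isHardy {A : Subring 𝓖} (hunit : ∀ a ∈ A, a ≠ 0 → IsUnit a)
    (hc : ∀ c : ℝ, gm (fun _ => c) ∈ A) (hid : gm (fun t => t) ∈ A)
    (hder : ∀ a ∈ A, HasDer a (Frac A)) : IsHardy (Frac A) where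
  const := fun c => le_frac A (hc c)
  id := le_frac A hid
  inv := by
    rintro x ⟨c, hcA, hcu, hxc⟩ hx
    have hxc0 : x * c ≠ 0 := by
      intro h0
      exact hx ((hcu.mul_left_eq_zero).1 h0)
    obtain ⟨u, hu⟩ := hunit _ hxc hxc0
    refine ⟨c * ((u⁻¹ : 𝓖ˣ) : 𝓖), ⟨x * c, hxc, hunit _ hxc hxc0, ?_⟩, ?_⟩
    · have : c * ((u⁻¹ : 𝓖ˣ) : 𝓖) * (x * c) = c := by
        rw [← hu, mul_assoc, Units.inv_mul, mul_one]
      rw [this]; exact hcA
    · have : x * (c * ((u⁻¹ : 𝓖ˣ) : 𝓖)) = (x * c) * ((u⁻¹ : 𝓖ˣ) : 𝓖) := by ring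
      rw [this, ← hu, Units.mul_inv]
  der := by
    rintro x ⟨c, hcA, ⟨u, hu⟩, hxc⟩
    have h1 : x = (x * c) * ((u⁻¹ : 𝓖ˣ) : 𝓖) := by
      rw [← hu, mul_assoc, Units.mul_inv, mul_one]
    have h2 : ((u⁻¹ : 𝓖ˣ) : 𝓖) ∈ Frac A :=
      ⟨c, hcA, ⟨u, hu⟩, by rw [← hu, Units.inv_mul]; exact A.one_mem⟩
    rw [h1]
    refine (hder _ hxc).mul ?_ (le_frac A hxc) h2
    exact (hder c hcA).inv (by rw [← hu, Units.mul_inv]) h2

theorem isUnit_gm {F : ℝ → ℝ} (h : ∀ᶠ t in atTop, F t ≠ 0) : IsUnit (gm F) := by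
  refine IsUnit.of_mul_eq_one (gm fun t => (F t)⁻¹) ?_
  rw [← gm_mul, ← gm_one, gm_eq]
  filter_upwards [h] with t ht
  exact mul_inv_cancel₀ ht

/-- the ring of polynomial expressions in `y` -/
noncomputable def Adj (K : Subring 𝓖) (y : 𝓖) : Subring 𝓖 :=
  ((aeval y : K[X] →ₐ[K] 𝓖) : K[X] →+* 𝓖).range

theorem mem_adj {y x : 𝓖} : x ∈ Adj K y ↔ ∃ p : K[X], aeval y p = x := Iff.rfl

theorem le_adj (y : 𝓖) : K ≤ Adj K y := fun a ha => ⟨C ⟨a, ha⟩, by simp; rfl⟩

theorem self_mem_adj (y : 𝓖) : y ∈ Adj K y := ⟨X, by simp⟩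

/-! ### the field structure -/

open Classical in
/-- the field structure on a Hardy field -/
noncomputable abbrev IsHardy.field (hK : IsHardy K) : Field K :=
  { (inferInstance : CommRing K) with
    inv := fun x => if h : (x : 𝓖) = 0 then 0 else
      ⟨(hK.inv x x.2 h).choose, (hK.inv x x.2 h).choose_spec.1⟩
    exists_pair_ne := ⟨0, 1, fun h => by
      have h1 : (0 : 𝓖) = 1 := congrArg Subtype.val h
      rw [← gm_zero, ← gm_one, gm_eq] at h1
      obtain ⟨t, ht⟩ := h1.exists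
      exact zero_ne_one ht⟩
    mul_inv_cancel := fun x hx => by
      have h : (x : 𝓖) ≠ 0 := fun h => hx (Subtype.ext h)
      change x * (dite _ _ _) = 1
      rw [dif_neg h]
      exact Subtype.ext (hK.inv x x.2 h).choose_spec.2
    inv_zero := dif_pos (show ((0 : K) : 𝓖) = 0 from rfl)
    nnqsmul := _
    nnqsmul_def := fun _ _ => rfl
    qsmul := _
    qsmul_def := fun _ _ => rfl }

/-! ### pointwise evaluation -/

/-- pointwise evaluation of a polynomial over `K` -/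
noncomputable def pe (p : K[X]) (t x : ℝ) : ℝ := ∑ i ∈ p.support, rep (p.coeff i : 𝓖) t * x ^ i

theorem aeval_pe (Y : ℝ → ℝ) (p : K[X]) : aeval (gm Y) p = gm (fun t => pe p t (Y t)) :=
  aeval_eq_sum_rep Y p

theorem eventually_forall_of {R : ℝ → ℝ → Prop}
    (h : ∀ Y : ℝ → ℝ, ∀ᶠ t in atTop, R t (Y t)) : ∀ᶠ t in atTop, ∀ x, R t x := by
  classical
  by_contra hcon
  rw [not_eventually] at hcon
  have h1 := h (fun t => if h : ∃ x, ¬ R t x then h.choose else 0)
  obtain ⟨t, h2, h3⟩ := (hcon.and_eventually h1).exists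
  push Not at h2
  rw [dif_pos h2] at h3
  exact h2.choose_spec h3

theorem pe_mul (p q : K[X]) : ∀ᶠ t in atTop, ∀ x, pe (p * q) t x = pe p t x * pe q t x := by
  refine eventually_forall_of fun Y => ?_
  have := aeval_pe (K := K) Y (p * q)
  rw [map_mul, aeval_pe, aeval_pe, ← gm_mul, gm_eq] at this
  exact this.mono fun t ht => ht.symm

theorem pe_add (p q : K[X]) : ∀ᶠ t in atTop, ∀ x, pe (p + q) t x = pe p t x + pe q t x := by
  refine eventually_forall_of fun Y => ?_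
  have := aeval_pe (K := K) Y (p + q)
  rw [map_add, aeval_pe, aeval_pe, ← gm_add, gm_eq] at this
  exact this.mono fun t ht => ht.symm

theorem pe_C (a : K) {F : ℝ → ℝ} (hF : gm F = a) : ∀ᶠ t in atTop, ∀ x, pe (C a) t x = F t := by
  refine eventually_forall_of fun Y => ?_
  have := aeval_pe (K := K) Y (C a)
  rw [aeval_C] at this
  have h1 : (algebraMap K 𝓖) a = (a : 𝓖) := rfl
  rw [h1, ← hF, gm_eq] at this
  exact this.mono fun t ht => ht.symm

theorem pe_X : ∀ᶠ t in atTop, ∀ x, pe (X : K[X]) t x = x := by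
  refine eventually_forall_of fun Y => ?_
  have := aeval_pe (K := K) Y X
  rw [aeval_X, gm_eq] at this
  exact this.mono fun t ht => ht.symm

theorem pe_one : ∀ᶠ t in atTop, ∀ x, pe (1 : K[X]) t x = 1 := by
  have := pe_C (K := K) 1 (F := fun _ => 1) rfl
  rw [C_1] at this
  exact this

theorem pe_X_sub_C (b : K) {F : ℝ → ℝ} (hF : gm F = b) :
    ∀ᶠ t in atTop, ∀ x, pe (X - C b) t x = x - F t := by
  refine eventually_forall_of fun Y => ?_
  have := aeval_pe (K := K) Y (X - C b)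
  rw [map_sub, aeval_X, aeval_C] at this
  have h1 : (algebraMap K 𝓖) b = (b : 𝓖) := rfl
  rw [h1, ← hF, ← gm_sub, gm_eq] at this
  exact this.mono fun t ht => ht.symm

/-- continuity in `x` -/
theorem pe_continuous (p : K[X]) (t : ℝ) : Continuous (pe p t) := by
  unfold pe
  fun_prop

theorem pe_hasDerivAt (p : K[X]) :
    ∀ᶠ t in atTop, ∀ x, HasDerivAt (pe p t) (pe (derivative p) t x) x := by
  have h1 : ∀ᶠ t in atTop, ∀ x, pe (derivative p) t x =
      ∑ i ∈ p.support, rep (p.coeff i : 𝓖) t * (i * x ^ (i - 1)) := by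
    refine eventually_forall_of fun Y => ?_
    have h2 := aeval_pe (K := K) Y (derivative p)
    conv_lhs at h2 => rw [derivative_apply, Polynomial.sum, map_sum]
    have h3 : ∀ i ∈ p.support, aeval (gm Y) (C (p.coeff i * (i : K)) * X ^ (i - 1)) =
        gm (fun t => rep (p.coeff i : 𝓖) t * (i * Y t ^ (i - 1))) := by
      intro i _
      rw [map_mul, aeval_C, map_pow, aeval_X]
      have h4 : (algebraMap K 𝓖) (p.coeff i * (i : K)) = (p.coeff i : 𝓖) * (i : 𝓖) := by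
        rw [map_mul, map_natCast]; rfl
      rw [h4, gm_mul, gm_rep, gm_mul, gm_pow, mul_assoc]
      rfl
    rw [Finset.sum_congr rfl h3, ← gm_sum, gm_eq] at h2
    exact h2.mono fun t ht => ht.symm
  filter_upwards [h1] with t ht x
  rw [ht x]
  unfold pe
  refine HasDerivAt.fun_sum fun i _ => ?_
  exact (hasDerivAt_pow i x).const_mul _

/-- for monic polynomials the leading term has coefficient one -/
theorem pe_monic {p : K[X]} (hp : p.Monic) : ∀ᶠ t in atTop, ∀ x,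
    pe p t x = x ^ p.natDegree + ∑ i ∈ p.support.erase p.natDegree,
      rep (p.coeff i : 𝓖) t * x ^ i := by
  have h0 : (1 : K) ≠ 0 := by
    intro h
    have h1 : (1 : 𝓖) = 0 := congrArg Subtype.val h
    rw [← gm_zero, ← gm_one, gm_eq] at h1
    obtain ⟨t, ht⟩ := h1.exists
    exact zero_ne_one ht.symm
  have hm : p.natDegree ∈ p.support := by
    rw [mem_support_iff, coeff_natDegree, hp.leadingCoeff]; exact h0
  have h1 : rep (p.coeff p.natDegree : 𝓖) =ᶠ[atTop] fun _ => 1 := by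
    rw [← gm_eq, gm_rep, gm_one, coeff_natDegree, hp.leadingCoeff]; rfl
  filter_upwards [h1] with t ht x
  unfold pe
  rw [← Finset.add_sum_erase _ _ hm, ht, one_mul]

end Pool.Agent.Helper87.RAM
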