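import Pool.Agent.Helper87.RAM.Basic

/-!
Hardy fields of germs at infinity: asymptotic comparison, slow elements, dominant terms.
-/

open Filter Topology Polynomial

namespace Pool.Agent.Helper87.RAM

variable {K L : Subring 𝓖}

/-- `F` and `G` have the same order of magnitude. -/
def Sim (F G : ℝ → ℝ) : Prop := ∃ c : ℝ, c ≠ 0 ∧ Tendsto (fun t => F t / G t) atTop (𝓝 c)

/-- `K` has no slow elements: if `F ∈ K` is not of order `1` then `t F'/F` does not tend to `0`. -/
def NoSlow (K : Subring 𝓖) : Prop :=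
  ∀ F : ℝ → ℝ, gm F ∈ K → (∀ᶠ t in atTop, F t ≠ 0) →
    Tendsto (fun t => t * logDeriv F t) atTop (𝓝 0) → ∃ c : ℝ, c ≠ 0 ∧ Tendsto F atTop (𝓝 c)

theorem Sim.refl {F : ℝ → ℝ} (hF : ∀ᶠ t in atTop, F t ≠ 0) : Sim F F :=
  ⟨1, one_ne_zero, tendsto_const_nhds.congr' (hF.mono fun _ ht => (div_self ht).symm)⟩

theorem Sim.symm {F G : ℝ → ℝ} (h : Sim F G) : Sim G F := by
  obtain ⟨c, hc, h⟩ := h
  exact ⟨c⁻¹, inv_ne_zero hc, (h.inv₀ hc).congr fun t => inv_div _ _⟩

theorem Sim.trans {F G H : ℝ → ℝ} (h : Sim F G) (h' : Sim G H) (hG : ∀ᶠ t in atTop, G t ≠ 0) :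
    Sim F H := by
  obtain ⟨c, hc, h⟩ := h
  obtain ⟨d, hd, h'⟩ := h'
  refine ⟨c * d, mul_ne_zero hc hd, (h.mul h').congr' ?_⟩
  filter_upwards [hG] with t ht
  field_simp

theorem Sim.mul {F G F' G' : ℝ → ℝ} (h : Sim F G) (h' : Sim F' G') :
    Sim (fun t => F t * F' t) (fun t => G t * G' t) := by
  obtain ⟨c, hc, h⟩ := h
  obtain ⟨d, hd, h'⟩ := h'
  refine ⟨c * d, mul_ne_zero hc hd, (h.mul h').congr fun t => ?_⟩
  rw [mul_div_mul_comm]

theorem Sim.inv {F G : ℝ → ℝ} (h : Sim F G) :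
    Sim (fun t => (F t)⁻¹) (fun t => (G t)⁻¹) := by
  obtain ⟨c, hc, h⟩ := h
  refine ⟨c⁻¹, inv_ne_zero hc, (h.inv₀ hc).congr fun t => ?_⟩
  rw [inv_div_inv, inv_div]

theorem Sim.div {F G F' G' : ℝ → ℝ} (h : Sim F G) (h' : Sim F' G') :
    Sim (fun t => F t / F' t) (fun t => G t / G' t) := by
  simpa [div_eq_mul_inv] using h.mul h'.inv

theorem Sim.congr_left {F F' G : ℝ → ℝ} (h : Sim F G) (hF : F =ᶠ[atTop] F') : Sim F' G := by
  obtain ⟨c, hc, h⟩ := h
  exact ⟨c, hc, h.congr' (hF.mono fun t ht => by rw [ht])⟩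

theorem Sim.ne_zero_left {F G : ℝ → ℝ} (h : Sim F G) : ∀ᶠ t in atTop, F t ≠ 0 := by
  obtain ⟨c, hc, h⟩ := h
  filter_upwards [h.eventually_ne hc] with t ht h0
  exact ht (by rw [h0, zero_div])

theorem Sim.ne_zero_right {F G : ℝ → ℝ} (h : Sim F G) : ∀ᶠ t in atTop, G t ≠ 0 :=
  h.symm.ne_zero_left

theorem Sim.tendsto_const {F G : ℝ → ℝ} (h : Sim F G) {c : ℝ} (hc : c ≠ 0)
    (hG : Tendsto G atTop (𝓝 c)) : ∃ d : ℝ, d ≠ 0 ∧ Tendsto F atTop (𝓝 d) := by
  have h0 := h.ne_zero_right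
  obtain ⟨e, he, h⟩ := h
  refine ⟨e * c, mul_ne_zero he hc, (h.mul hG).congr' ?_⟩
  filter_upwards [h0] with t ht
  field_simp

namespace IsHardy

theorem logDeriv_mem (hK : IsHardy K) {F : ℝ → ℝ} (hF : gm F ∈ K) : gm (logDeriv F) ∈ K :=
  hK.div_mem (hK.deriv_mem hF) hF

theorem tlogDeriv_mem (hK : IsHardy K) {F : ℝ → ℝ} (hF : gm F ∈ K) :
    gm (fun t => t * logDeriv F t) ∈ K :=
  mul_mem' hK.id (hK.logDeriv_mem hF)

/-- a bounded (nonzero limit) element has small logarithmic derivative -/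
theorem small_logDeriv (hK : IsHardy K) {F : ℝ → ℝ} (hF : gm F ∈ K) {c : ℝ} (hc0 : c ≠ 0)
    (hc : Tendsto F atTop (𝓝 c)) : Tendsto (fun t => t * logDeriv F t) atTop (𝓝 0) := by
  have h1 := hK.small hF ((hK.diff hF).mono fun t ht => ht.hasDerivAt) hc
  have h2 := h1.div hc hc0
  rw [zero_div] at h2
  refine h2.congr fun t => ?_
  simp only [Pi.div_apply]
  rw [logDeriv_apply, mul_div_assoc]

theorem sim_logDeriv (hL : IsHardy L) {F G : ℝ → ℝ} (hF : gm F ∈ L) (hG : gm G ∈ L)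
    (h : Sim F G) : Tendsto (fun t => t * logDeriv F t - t * logDeriv G t) atTop (𝓝 0) := by
  have hF0 := h.ne_zero_left
  have hG0 := h.ne_zero_right
  obtain ⟨c, hc, h⟩ := h
  refine (hL.small_logDeriv (hL.div_mem hF hG) hc h).congr' ?_
  filter_upwards [hF0, hG0, hL.diff hF, hL.diff hG] with t h1 h2 h3 h4
  have h5 : logDeriv (fun t => F t / G t) t = logDeriv F t - logDeriv G t :=
    logDeriv_div t h1 h2 h3 h4
  rw [h5]
  ring

end IsHardy

/-- the logarithmic derivative of an element tending to zero -/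
theorem NoSlow.neg (hK : IsHardy K) (hP : NoSlow K) {F : ℝ → ℝ} (hF : gm F ∈ K)
    (hF0 : ∀ᶠ t in atTop, F t ≠ 0) (h0 : Tendsto F atTop (𝓝 0)) :
    Tendsto (fun t => t * logDeriv F t) atTop atBot ∨
      ∃ c < 0, Tendsto (fun t => t * logDeriv F t) atTop (𝓝 c) := by
  have key : ¬ ∀ᶠ t in atTop, 0 < t * logDeriv F t := by
    intro hcon
    obtain ⟨T, hT⟩ := monotoneOn_of_deriv_nonneg' (F := fun t => Real.log (F t))
      (F' := fun t => logDeriv F t) (by
        filter_upwards [hF0, hK.diff hF] with t h1 h2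
        exact h2.hasDerivAt.log h1) (by
        filter_upwards [hcon, eventually_gt_atTop 0] with t h1 h2
        exact (pos_of_mul_pos_right h1 h2.le).le)
    have h1 : Tendsto (fun t => Real.log (F t)) atTop atBot := by
      have h2 : Tendsto F atTop (𝓝[≠] 0) :=
        tendsto_nhdsWithin_iff.2 ⟨h0, hF0⟩
      exact Real.tendsto_log_nhdsNE_zero.comp h2
    obtain ⟨t, h3, h4⟩ := ((h1.eventually_lt_atBot (Real.log (F T))).and
      (eventually_ge_atTop T)).exists
    have := hT (Set.mem_Ici.2 le_rfl) (Set.mem_Ici.2 h4) h4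
    simp only at this
    linarith
  rcases hK.lim (hK.tlogDeriv_mem hF) with h | h | ⟨c, h⟩
  · exact absurd (h.eventually_gt_atTop 0) key
  · exact Or.inl h
  · right
    rcases lt_trichotomy c 0 with hc | hc | hc
    · exact ⟨c, hc, h⟩
    · rw [hc] at h
      obtain ⟨d, hd, h'⟩ := hP F hF hF0 h
      exact absurd (tendsto_nhds_unique h' h0) hd
    · exact absurd (h.eventually_const_lt hc) key

theorem NoSlow.exists_q (hK : IsHardy K) (hP : NoSlow K) {F : ℝ → ℝ} (hF : gm F ∈ K)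
    (hF0 : ∀ᶠ t in atTop, F t ≠ 0) (h0 : Tendsto F atTop (𝓝 0)) :
    ∃ q > 0, ∀ᶠ t in atTop, t * logDeriv F t ≤ -(2 * q) := by
  rcases hP.neg hK hF hF0 h0 with h | ⟨c, hc, h⟩
  · exact ⟨1, one_pos, h.eventually_le_atBot _⟩
  · refine ⟨-c / 4, by linarith, ?_⟩
    filter_upwards [h.eventually_lt_const (show c < c / 2 by linarith)] with t ht
    linarith

/-- an element tending to zero is at most a negative power of `t` -/
theorem NoSlow.decay (hK : IsHardy K) (hP : NoSlow K) {F : ℝ → ℝ} (hF : gm F ∈ K)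
    (hF0 : ∀ᶠ t in atTop, F t ≠ 0) (h0 : Tendsto F atTop (𝓝 0)) :
    ∃ q : ℝ, 0 < q ∧ ∀ᶠ t in atTop, |F t| ≤ t ^ (-q) := by
  obtain ⟨q, hq, h⟩ := hP.exists_q hK hF hF0 h0
  refine ⟨q, hq, ?_⟩
  obtain ⟨T, hT⟩ := monotoneOn_of_deriv_nonneg'
    (F := fun t => -(Real.log (F t) + 2 * q * Real.log t))
    (F' := fun t => -(logDeriv F t + 2 * q * t⁻¹)) (by
      filter_upwards [hF0, hK.diff hF, eventually_gt_atTop 0] with t h1 h2 h3
      exact ((h2.hasDerivAt.log h1).add ((Real.hasDerivAt_log h3.ne').const_mul _)).neg) (by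
      filter_upwards [h, eventually_gt_atTop 0] with t h1 h2
      have h3 : logDeriv F t ≤ -(2 * q) * t⁻¹ := by
        rw [← div_eq_mul_inv, le_div_iff₀ h2]; linarith
      linarith)
  have h4 : ∀ᶠ t in atTop, (Real.log (F T) + 2 * q * Real.log T) ≤ q * Real.log t :=
    (Real.tendsto_log_atTop.const_mul_atTop hq).eventually_ge_atTop _
  filter_upwards [hF0, eventually_ge_atTop T, h4, eventually_gt_atTop 0] with t h1 h2 h5 h6
  have h7 := hT (Set.mem_Ici.2 le_rfl) (Set.mem_Ici.2 h2) h2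
  simp only at h7
  have h8 : Real.log |F t| ≤ -q * Real.log t := by
    rw [Real.log_abs]; linarith
  have h9 : |F t| = Real.exp (Real.log |F t|) := (Real.exp_log (abs_pos.2 h1)).symm
  rw [h9, Real.rpow_def_of_pos h6]
  exact Real.exp_le_exp.2 (by linarith)

/-- convergence of primitives of functions which are `O(t^{-1-q})` -/
theorem conv_of_decay {Φ Φ' : ℝ → ℝ} (h : ∀ᶠ t in atTop, HasDerivAt Φ (Φ' t) t)
    (hs : (Φ' =ᶠ[atTop] fun _ => 0) ∨ (∀ᶠ t in atTop, 0 < Φ' t) ∨ (∀ᶠ t in atTop, Φ' t < 0))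
    {q M : ℝ} (hq : 0 < q) (hb : ∀ᶠ t in atTop, |t * Φ' t| ≤ M * t ^ (-q)) :
    ∃ c, Tendsto Φ atTop (𝓝 c) := by
  have key : ∀ (Φ Φ' : ℝ → ℝ), (∀ᶠ t in atTop, HasDerivAt Φ (Φ' t) t) →
      (∀ᶠ t in atTop, |t * Φ' t| ≤ M * t ^ (-q)) → ¬ Tendsto Φ atTop atTop := by
    intro Φ Φ' h hb htop
    obtain ⟨T, hT⟩ := monotoneOn_of_deriv_nonneg'
      (F := fun t => -(Φ t + M / q * t ^ (-q)))
      (F' := fun t => -(Φ' t + M / q * (-q * t ^ (-q - 1)))) (by
        filter_upwards [h, eventually_gt_atTop 0] with t h1 h3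
        exact (h1.add ((Real.hasDerivAt_rpow_const (Or.inl h3.ne')).const_mul _)).neg) (by
        filter_upwards [hb, eventually_gt_atTop 0] with t h1 h2
        have h3 : t * Φ' t ≤ M * t ^ (-q) := (le_abs_self _).trans h1
        have h4 : Φ' t ≤ M * t ^ (-q - 1) := by
          rw [Real.rpow_sub h2, Real.rpow_one, mul_div_assoc', le_div_iff₀ h2]
          linarith
        have h5 : M / q * (-q * t ^ (-q - 1)) = - (M * t ^ (-q - 1)) := by
          field_simp
        rw [h5]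
        linarith)
    have h6 : Tendsto (fun t : ℝ => M / q * t ^ (-q)) atTop (𝓝 0) := by
      simpa using (tendsto_rpow_neg_atTop hq).const_mul (M / q)
    have h7 : Tendsto (fun t => Φ t + M / q * t ^ (-q)) atTop atTop :=
      htop.atTop_add h6
    obtain ⟨t, h8, h9⟩ := ((h7.eventually_gt_atTop (Φ T + M / q * T ^ (-q))).and
      (eventually_ge_atTop T)).exists
    have := hT (Set.mem_Ici.2 le_rfl) (Set.mem_Ici.2 h9) h9
    simp only at this
    linarith
  rcases exists_lim_of_deriv h hs with h1 | h1 | h1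
  · exact absurd h1 (key Φ Φ' h hb)
  · refine absurd (tendsto_neg_atBot_atTop.comp h1) (key (fun t => -Φ t) (fun t => -Φ' t)
      (h.mono fun t ht => ht.neg) ?_)
    filter_upwards [hb] with t ht
    rwa [mul_neg, abs_neg]
  · exact h1

/-- if the logarithmic derivative of `V` is integrable then `V` tends to a nonzero limit -/
theorem tendsto_of_logDeriv {V u : ℝ → ℝ} (hV0 : ∀ᶠ t in atTop, V t ≠ 0)
    (hV : ∀ᶠ t in atTop, HasDerivAt V (u t * V t) t)
    (hs : (u =ᶠ[atTop] fun _ => 0) ∨ (∀ᶠ t in atTop, 0 < u t) ∨ (∀ᶠ t in atTop, u t < 0))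
    {q M : ℝ} (hq : 0 < q) (hb : ∀ᶠ t in atTop, |t * u t| ≤ M * t ^ (-q)) :
    ∃ c, c ≠ 0 ∧ Tendsto (fun t => |V t|) atTop (𝓝 c) := by
  have h1 : ∀ᶠ t in atTop, HasDerivAt (fun t => Real.log (V t)) (u t) t := by
    filter_upwards [hV0, hV] with t h1 h2
    have := h2.log h1
    rwa [mul_div_assoc, div_self h1, mul_one] at this
  obtain ⟨c, hc⟩ := conv_of_decay h1 hs hq hb
  refine ⟨Real.exp c, (Real.exp_pos c).ne', ((Real.continuous_exp.tendsto c).comp hc).congr' ?_⟩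
  filter_upwards [hV0] with t ht
  simp only [Function.comp_apply]
  rw [← Real.log_abs, Real.exp_log (abs_pos.2 ht)]

/-! ### Dominant terms -/

theorem exists_dominant {ι : Type*} (s : Finset ι) (hs : s.Nonempty) (f : ι → ℝ → ℝ)
    (hne : ∀ i ∈ s, ∀ᶠ t in atTop, f i t ≠ 0)
    (h : ∀ i ∈ s, ∀ j ∈ s, i ≠ j → Tendsto (fun t => f i t / f j t) atTop (𝓝 0) ∨
      Tendsto (fun t => f j t / f i t) atTop (𝓝 0)) :
    ∃ m ∈ s, ∀ i ∈ s, i ≠ m → Tendsto (fun t => f i t / f m t) atTop (𝓝 0) := by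
  classical
  induction hs using Finset.Nonempty.cons_induction with
  | singleton a => exact ⟨a, by simp, fun i hi hia => absurd (by simpa using hi) hia⟩
  | cons a s ha hs ih =>
    obtain ⟨m, hm, ih⟩ := ih (fun i hi => hne i (Finset.mem_cons_of_mem hi))
      (fun i hi j hj hij => h i (Finset.mem_cons_of_mem hi) j (Finset.mem_cons_of_mem hj) hij)
    have ham : a ≠ m := fun h => ha (h ▸ hm)
    rcases h a (Finset.mem_cons_self _ _) m (Finset.mem_cons_of_mem hm) ham with h1 | h1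
    · refine ⟨m, Finset.mem_cons_of_mem hm, fun i hi him => ?_⟩
      rcases Finset.mem_cons.1 hi with rfl | hi
      · exact h1
      · exact ih i hi him
    · refine ⟨a, Finset.mem_cons_self _ _, fun i hi hia => ?_⟩
      rcases Finset.mem_cons.1 hi with rfl | hi
      · exact absurd rfl hia
      · by_cases him : i = m
        · rw [him]; exact h1
        · have h2 := (ih i hi him).mul h1
          rw [mul_zero] at h2
          refine h2.congr' ?_
          filter_upwards [hne m (Finset.mem_cons_of_mem hm)] with t ht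
          field_simp

/-- a representative of a germ -/
noncomputable def rep (f : 𝓖) : ℝ → ℝ := Quotient.out f

theorem gm_rep (f : 𝓖) : gm (rep f) = f := Quotient.out_eq f

theorem gm_sum {ι : Type*} (s : Finset ι) (f : ι → ℝ → ℝ) :
    gm (fun t => ∑ i ∈ s, f i t) = ∑ i ∈ s, gm (f i) := by
  classical
  induction s using Finset.induction_on with
  | empty => simp only [Finset.sum_empty]; rfl
  | insert a s ha ih =>
    simp only [Finset.sum_insert ha]
    rw [gm_add, ih]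

/-- `Y` is free over `K`: no positive power of `Y` has the order of magnitude of an element of
`K`. -/
def Free (K : Subring 𝓖) (Y : ℝ → ℝ) : Prop :=
  ∀ n : ℕ, 1 ≤ n → ∀ A : ℝ → ℝ, gm A ∈ K → ¬ Sim (fun t => Y t ^ n) A

theorem aeval_eq_sum_rep (Y : ℝ → ℝ) (p : K[X]) :
    aeval (gm Y) p = gm (fun t => ∑ i ∈ p.support, rep (p.coeff i : 𝓖) t * Y t ^ i) := by
  rw [gm_sum, aeval_def, eval₂_eq_sum, Polynomial.sum]
  refine Finset.sum_congr rfl fun i _ => ?_
  rw [gm_mul, gm_rep, gm_pow]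
  rfl

/-- dominant term of a polynomial in a free element -/
theorem dominant (hL : IsHardy L) (hK : IsHardy K) (hKL : K ≤ L) {Y : ℝ → ℝ} (hY : gm Y ∈ L)
    (hY0 : ∀ᶠ t in atTop, Y t ≠ 0) (hfree : Free K Y) (p : K[X]) (hp : p ≠ 0) :
    ∃ (A : ℝ → ℝ) (m : ℕ), gm A ∈ K ∧ (∀ᶠ t in atTop, A t ≠ 0) ∧
      ∀ F : ℝ → ℝ, gm F = aeval (gm Y) p → Sim F (fun t => A t * Y t ^ m) := by
  set A : ℕ → ℝ → ℝ := fun i => rep (p.coeff i : 𝓖) with hA
  have hAK : ∀ i, gm (A i) ∈ K := fun i => by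
    simp only [hA]; rw [gm_rep]; exact (p.coeff i).2
  have hA0 : ∀ i ∈ p.support, ∀ᶠ t in atTop, A i t ≠ 0 := by
    intro i hi
    refine hK.ne_zero (hAK i) ?_
    simp only [hA]
    rw [gm_rep]
    intro h
    exact (mem_support_iff.1 hi) (Subtype.ext h)
  set f : ℕ → ℝ → ℝ := fun i t => A i t * Y t ^ i with hf
  have hfL : ∀ i, gm (f i) ∈ L := fun i => mul_mem' (hKL (hAK i)) (pow_mem' hY i)
  have hf0 : ∀ i ∈ p.support, ∀ᶠ t in atTop, f i t ≠ 0 := by
    intro i hi
    filter_upwards [hA0 i hi, hY0] with t h1 h2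
    exact mul_ne_zero h1 (pow_ne_zero _ h2)
  have hcmp : ∀ i ∈ p.support, ∀ j ∈ p.support, j < i →
      Tendsto (fun t => f i t / f j t) atTop (𝓝 0) ∨
      Tendsto (fun t => f j t / f i t) atTop (𝓝 0) := by
    intro i hi j hj hij
    have hinv : (fun t => (f i t / f j t)⁻¹) = fun t => f j t / f i t := by
      funext t; rw [inv_div]
    rcases hL.lim (hL.div_mem (hfL i) (hfL j)) with h | h | ⟨c, h⟩
    · right; rw [← hinv]; exact h.inv_tendsto_atTop
    · right; rw [← hinv]; exact h.inv_tendsto_atBot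
    · by_cases hc : c = 0
      · left; rwa [hc] at h
      · exfalso
        refine hfree (i - j) (by omega) (fun t => A j t / A i t) (hK.div_mem (hAK j) (hAK i)) ?_
        refine ⟨c, hc, h.congr' ?_⟩
        filter_upwards [hA0 i hi, hA0 j hj, hY0] with t h1 h2 h3
        simp only [hf]
        have h4 : Y t ^ i = Y t ^ (i - j) * Y t ^ j := by
          rw [← pow_add]; congr 1; omega
        rw [h4]
        field_simp
  obtain ⟨m, hm, hdom⟩ := exists_dominant p.support (by simpa using hp) f hf0 (by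
    intro i hi j hj hij
    rcases lt_or_gt_of_ne hij with h | h
    · exact (hcmp j hj i hi h).symm
    · exact hcmp i hi j hj h)
  refine ⟨A m, m, hAK m, hA0 m hm, fun F hF => ?_⟩
  rw [aeval_eq_sum_rep, gm_eq] at hF
  refine ⟨1, one_ne_zero, ?_⟩
  have h1 : Tendsto (fun t => ∑ i ∈ p.support, f i t / f m t) atTop
      (𝓝 (∑ i ∈ p.support, if i = m then 1 else 0)) := by
    refine tendsto_finsetSum _ fun i hi => ?_
    by_cases him : i = m
    · rw [if_pos him, him]
      exact tendsto_const_nhds.congr' ((hf0 m hm).mono fun t ht => (div_self ht).symm)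
    · rw [if_neg him]; exact hdom i hi him
  have h2 : (∑ i ∈ p.support, if i = m then (1:ℝ) else 0) = 1 := by
    rw [Finset.sum_ite_eq', if_pos hm]
  rw [h2] at h1
  refine h1.congr' ?_
  filter_upwards [hF] with t ht
  rw [ht, Finset.sum_div]

end Pool.Agent.Helper87.RAM
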