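import Mathlib

/-!
Hardy fields of germs at infinity: basic facts.
-/

open Filter Topology Polynomial

namespace Pool.Agent.Helper87.RAM

/-- The ring of germs at `+∞` of real functions. -/
abbrev 𝓖 : Type := Germ (atTop : Filter ℝ) ℝ

/-- The germ of a function. -/
abbrev gm (F : ℝ → ℝ) : 𝓖 := (F : 𝓖)

theorem gm_eq {F G : ℝ → ℝ} : gm F = gm G ↔ F =ᶠ[atTop] G := Germ.coe_eq

/-- `f` is eventually differentiable with derivative in `K`. -/
def HasDer (f : 𝓖) (K : Subring 𝓖) : Prop :=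
  ∃ F F' : ℝ → ℝ, f = gm F ∧ gm F' ∈ K ∧ ∀ᶠ t in atTop, HasDerivAt F (F' t) t

/-- Hardy fields containing the constants and the identity. -/
structure IsHardy (K : Subring 𝓖) : Prop where
  const : ∀ c : ℝ, gm (fun _ => c) ∈ K
  id : gm (fun t => t) ∈ K
  inv : ∀ f ∈ K, f ≠ 0 → ∃ g ∈ K, f * g = 1
  der : ∀ f ∈ K, HasDer f K

variable {K : Subring 𝓖}

theorem gm_add (F G : ℝ → ℝ) : gm (fun t => F t + G t) = gm F + gm G := rfl
theorem gm_sub (F G : ℝ → ℝ) : gm (fun t => F t - G t) = gm F - gm G := rfl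
theorem gm_mul (F G : ℝ → ℝ) : gm (fun t => F t * G t) = gm F * gm G := rfl
theorem gm_neg (F : ℝ → ℝ) : gm (fun t => - F t) = - gm F := rfl
theorem gm_one : gm (fun _ => 1) = 1 := rfl
theorem gm_zero : gm (fun _ => 0) = 0 := rfl
theorem gm_pow (F : ℝ → ℝ) (n : ℕ) : gm (fun t => F t ^ n) = gm F ^ n := rfl

theorem gm_ne_zero_of {F : ℝ → ℝ} (h : ∀ᶠ t in atTop, F t ≠ 0) : gm F ≠ 0 := by
  intro h0
  rw [← gm_zero, gm_eq] at h0
  obtain ⟨t, h1, h2⟩ := (h.and h0).exists
  exact h1 h2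

theorem mem_congr {F G : ℝ → ℝ} (h : F =ᶠ[atTop] G) (hF : gm F ∈ K) : gm G ∈ K := by
  rwa [← gm_eq.2 h]

theorem mul_mem' {F G : ℝ → ℝ} (hF : gm F ∈ K) (hG : gm G ∈ K) : gm (fun t => F t * G t) ∈ K :=
  K.mul_mem hF hG
theorem add_mem' {F G : ℝ → ℝ} (hF : gm F ∈ K) (hG : gm G ∈ K) : gm (fun t => F t + G t) ∈ K :=
  K.add_mem hF hG
theorem sub_mem' {F G : ℝ → ℝ} (hF : gm F ∈ K) (hG : gm G ∈ K) : gm (fun t => F t - G t) ∈ K :=
  K.sub_mem hF hG
theorem neg_mem' {F : ℝ → ℝ} (hF : gm F ∈ K) : gm (fun t => - F t) ∈ K :=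
  K.neg_mem hF
theorem pow_mem' {F : ℝ → ℝ} (hF : gm F ∈ K) (n : ℕ) : gm (fun t => F t ^ n) ∈ K :=
  K.pow_mem hF n

namespace IsHardy

variable (hK : IsHardy K)
include hK

/-- nonzero elements are eventually nonzero -/
theorem ne_zero {F : ℝ → ℝ} (hF : gm F ∈ K) (h : gm F ≠ 0) : ∀ᶠ t in atTop, F t ≠ 0 := by
  obtain ⟨g, hg, hfg⟩ := hK.inv _ hF h
  induction g using Germ.inductionOn with
  | h G =>
    have h1 : (fun t => F t * G t) =ᶠ[atTop] fun _ => 1 := by
      rw [← gm_eq, gm_mul, gm_one]; exact hfg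
    filter_upwards [h1] with t ht h0
    rw [h0, zero_mul] at ht
    exact zero_ne_one ht

theorem eq_zero_or {F : ℝ → ℝ} (hF : gm F ∈ K) :
    (F =ᶠ[atTop] fun _ => 0) ∨ ∀ᶠ t in atTop, F t ≠ 0 := by
  by_cases h : gm F = 0
  · left; rwa [← gm_zero, gm_eq] at h
  · right; exact hK.ne_zero hF h

theorem inv_mem {F : ℝ → ℝ} (hF : gm F ∈ K) : gm (fun t => (F t)⁻¹) ∈ K := by
  by_cases h : gm F = 0
  · rw [← gm_zero, gm_eq] at h
    refine mem_congr (F := fun _ => 0) ?_ (hK.const 0)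
    filter_upwards [h] with t ht
    rw [ht, inv_zero]
  · obtain ⟨g, hg, hfg⟩ := hK.inv _ hF h
    induction g using Germ.inductionOn with
    | h G =>
      have h1 : (fun t => F t * G t) =ᶠ[atTop] fun _ => 1 := by
        rw [← gm_eq, gm_mul, gm_one]; exact hfg
      refine mem_congr (F := G) ?_ hg
      filter_upwards [h1] with t ht
      exact (inv_eq_of_mul_eq_one_right ht).symm

theorem div_mem {F G : ℝ → ℝ} (hF : gm F ∈ K) (hG : gm G ∈ K) : gm (fun t => F t / G t) ∈ K := by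
  have := mul_mem' hF (hK.inv_mem hG)
  refine mem_congr ?_ this
  exact Eventually.of_forall fun t => (div_eq_mul_inv _ _).symm

theorem zpow_mem {F : ℝ → ℝ} (hF : gm F ∈ K) (n : ℤ) : gm (fun t => F t ^ n) ∈ K := by
  obtain ⟨m, rfl | rfl⟩ := n.eq_nat_or_neg
  · simpa using pow_mem' hF m
  · have := pow_mem' (hK.inv_mem hF) m
    refine mem_congr ?_ this
    refine Eventually.of_forall fun t => ?_
    simp

/-- representatives are eventually differentiable, with derivative in `K` -/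
theorem exists_der {F : ℝ → ℝ} (hF : gm F ∈ K) :
    ∃ F' : ℝ → ℝ, gm F' ∈ K ∧ ∀ᶠ t in atTop, HasDerivAt F (F' t) t := by
  obtain ⟨G, G', h1, h2, h3⟩ := hK.der _ hF
  refine ⟨G', h2, ?_⟩
  obtain ⟨T, hT⟩ := eventually_atTop.1 (gm_eq.1 h1)
  filter_upwards [h3, eventually_gt_atTop T] with t ht htT
  refine ht.congr_of_eventuallyEq ?_
  filter_upwards [Ioi_mem_nhds htT] with s hs
  exact hT s hs.le

theorem deriv_mem {F : ℝ → ℝ} (hF : gm F ∈ K) : gm (deriv F) ∈ K := by
  obtain ⟨F', h1, h2⟩ := hK.exists_der hF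
  exact mem_congr (h2.mono fun t ht => ht.deriv.symm) h1

theorem diff {F : ℝ → ℝ} (hF : gm F ∈ K) : ∀ᶠ t in atTop, DifferentiableAt ℝ F t := by
  obtain ⟨F', h1, h2⟩ := hK.exists_der hF
  exact h2.mono fun t ht => ht.differentiableAt

/-- trichotomy -/
theorem sign {F : ℝ → ℝ} (hF : gm F ∈ K) :
    (F =ᶠ[atTop] fun _ => 0) ∨ (∀ᶠ t in atTop, 0 < F t) ∨ (∀ᶠ t in atTop, F t < 0) := by
  rcases hK.eq_zero_or hF with h | h
  · exact Or.inl h
  right
  obtain ⟨T, hT⟩ := eventually_atTop.1 (h.and (hK.diff hF))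
  have hc : ContinuousOn F (Set.Ici T) := fun t ht => (hT t ht).2.continuousAt.continuousWithinAt
  have hp : IsPreconnected (F '' Set.Ici T) := (isPreconnected_Ici).image F hc
  have h0 : (0 : ℝ) ∉ F '' Set.Ici T := by
    rintro ⟨t, ht, h1⟩
    exact (hT t ht).1 h1
  have hord := hp.ordConnected
  rcases lt_or_gt_of_ne (hT T le_rfl).1 with h1 | h1
  · right
    refine eventually_atTop.2 ⟨T, fun t ht => ?_⟩
    by_contra hcon
    push Not at hcon
    exact h0 (hord.out ⟨T, Set.mem_Ici.2 le_rfl, rfl⟩ ⟨t, ht, rfl⟩ ⟨h1.le, hcon⟩)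
  · left
    refine eventually_atTop.2 ⟨T, fun t ht => ?_⟩
    by_contra hcon
    push Not at hcon
    exact h0 (hord.out ⟨t, ht, rfl⟩ ⟨T, Set.mem_Ici.2 le_rfl, rfl⟩ ⟨hcon, h1.le⟩)

/-- comparison of two elements -/
theorem cmp {F G : ℝ → ℝ} (hF : gm F ∈ K) (hG : gm G ∈ K) :
    (∀ᶠ t in atTop, F t ≤ G t) ∨ (∀ᶠ t in atTop, G t < F t) := by
  rcases hK.sign (sub_mem' hG hF) with h | h | h
  · left; filter_upwards [h] with t ht; linarith
  · left; filter_upwards [h] with t ht; linarith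
  · right; filter_upwards [h] with t ht; linarith

end IsHardy

theorem tendsto_of_eventually_monotone {F : ℝ → ℝ} {T : ℝ} (h : MonotoneOn F (Set.Ici T)) :
    Tendsto F atTop atTop ∨ ∃ c, Tendsto F atTop (𝓝 c) := by
  have h1 : Monotone fun t => F (max t T) := fun a b hab =>
    h (Set.mem_Ici.2 (le_max_right _ _)) (Set.mem_Ici.2 (le_max_right _ _)) (max_le_max_right _ hab)
  have h2 : (fun t => F (max t T)) =ᶠ[atTop] F := by
    filter_upwards [eventually_ge_atTop T] with t ht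
    rw [max_eq_left ht]
  rcases tendsto_atTop_of_monotone h1 with h3 | ⟨c, h3⟩
  · left; exact h3.congr' h2
  · right; exact ⟨c, h3.congr' h2⟩

theorem monotoneOn_of_deriv_nonneg' {F F' : ℝ → ℝ} (h : ∀ᶠ t in atTop, HasDerivAt F (F' t) t)
    (h0 : ∀ᶠ t in atTop, 0 ≤ F' t) : ∃ T, MonotoneOn F (Set.Ici T) := by
  obtain ⟨T, hT⟩ := eventually_atTop.1 (h.and h0)
  refine ⟨T, monotoneOn_of_hasDerivWithinAt_nonneg (convex_Ici T)
    (fun t ht => (hT t ht).1.continuousAt.continuousWithinAt)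
    (fun t ht => (hT t (interior_subset ht)).1.hasDerivWithinAt)
    (fun t ht => (hT t (interior_subset ht)).2)⟩

theorem strictMonoOn_of_deriv_pos' {F F' : ℝ → ℝ} (h : ∀ᶠ t in atTop, HasDerivAt F (F' t) t)
    (h0 : ∀ᶠ t in atTop, 0 < F' t) : ∃ T, StrictMonoOn F (Set.Ici T) := by
  obtain ⟨T, hT⟩ := eventually_atTop.1 (h.and h0)
  refine ⟨T, strictMonoOn_of_hasDerivWithinAt_pos (convex_Ici T)
    (fun t ht => (hT t ht).1.continuousAt.continuousWithinAt)
    (fun t ht => (hT t (interior_subset ht)).1.hasDerivWithinAt)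
    (fun t ht => (hT t (interior_subset ht)).2)⟩

theorem const_of_deriv_zero' {F F' : ℝ → ℝ} (h : ∀ᶠ t in atTop, HasDerivAt F (F' t) t)
    (h0 : ∀ᶠ t in atTop, F' t = 0) : ∃ c, F =ᶠ[atTop] fun _ => c := by
  obtain ⟨T, hT⟩ := eventually_atTop.1 (h.and h0)
  refine ⟨F T, ?_⟩
  filter_upwards [eventually_ge_atTop T] with t ht
  have h1 : MonotoneOn F (Set.Ici T) := monotoneOn_of_hasDerivWithinAt_nonneg (convex_Ici T)
    (fun t ht => (hT t ht).1.continuousAt.continuousWithinAt)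
    (fun t ht => (hT t (interior_subset ht)).1.hasDerivWithinAt)
    (fun t ht => (hT t (interior_subset ht)).2.ge)
  have h2 : AntitoneOn F (Set.Ici T) := antitoneOn_of_hasDerivWithinAt_nonpos (convex_Ici T)
    (fun t ht => (hT t ht).1.continuousAt.continuousWithinAt)
    (fun t ht => (hT t (interior_subset ht)).1.hasDerivWithinAt)
    (fun t ht => (hT t (interior_subset ht)).2.le)
  exact le_antisymm (h2 (Set.mem_Ici.2 le_rfl) ht ht) (h1 (Set.mem_Ici.2 le_rfl) ht ht)

/-- existence of limits when the derivative has constant sign -/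
theorem exists_lim_of_deriv {F F' : ℝ → ℝ} (h : ∀ᶠ t in atTop, HasDerivAt F (F' t) t)
    (hs : (F' =ᶠ[atTop] fun _ => 0) ∨ (∀ᶠ t in atTop, 0 < F' t) ∨ (∀ᶠ t in atTop, F' t < 0)) :
    Tendsto F atTop atTop ∨ Tendsto F atTop atBot ∨ ∃ c, Tendsto F atTop (𝓝 c) := by
  rcases hs with h1 | h1 | h1
  · obtain ⟨c, hc⟩ := const_of_deriv_zero' h h1
    exact Or.inr (Or.inr ⟨c, tendsto_const_nhds.congr' hc.symm⟩)
  · obtain ⟨T, hT⟩ := monotoneOn_of_deriv_nonneg' h (h1.mono fun t ht => ht.le)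
    rcases tendsto_of_eventually_monotone hT with h2 | h2
    · exact Or.inl h2
    · exact Or.inr (Or.inr h2)
  · obtain ⟨T, hT⟩ := monotoneOn_of_deriv_nonneg' (F := fun t => - F t) (F' := fun t => - F' t)
      (h.mono fun t ht => ht.neg) (h1.mono fun t ht => by linarith)
    rcases tendsto_of_eventually_monotone hT with h2 | ⟨c, h2⟩
    · refine Or.inr (Or.inl ?_)
      have := tendsto_neg_atTop_atBot.comp h2
      simpa [Function.comp_def] using this
    · refine Or.inr (Or.inr ⟨-c, ?_⟩)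
      simpa using h2.neg

theorem IsHardy.lim (hK : IsHardy K) {F : ℝ → ℝ} (hF : gm F ∈ K) :
    Tendsto F atTop atTop ∨ Tendsto F atTop atBot ∨ ∃ c, Tendsto F atTop (𝓝 c) := by
  obtain ⟨F', h1, h2⟩ := hK.exists_der hF
  exact exists_lim_of_deriv h2 (hK.sign h1)

/-- (L): bounded elements have small derivatives -/
theorem IsHardy.small (hK : IsHardy K) {F F' : ℝ → ℝ} (hF : gm F ∈ K)
    (hF' : ∀ᶠ t in atTop, HasDerivAt F (F' t) t) {c : ℝ} (hc : Tendsto F atTop (𝓝 c)) :
    Tendsto (fun t => t * F' t) atTop (𝓝 0) := by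
  have hF'K : gm F' ∈ K := by
    obtain ⟨G, h1, h2⟩ := hK.exists_der hF
    refine mem_congr ?_ h1
    filter_upwards [h2, hF'] with t h3 h4
    exact h3.unique h4
  have hmem : gm (fun t => t * F' t) ∈ K := mul_mem' hK.id hF'K
  -- it suffices that it is not eventually `≥ δ` nor `≤ -δ`
  have key : ∀ (F F' : ℝ → ℝ) (c δ : ℝ), (∀ᶠ t in atTop, HasDerivAt F (F' t) t) →
      Tendsto F atTop (𝓝 c) → 0 < δ → ¬ ∀ᶠ t in atTop, δ ≤ t * F' t := by
    intro F F' c δ hF' hc hδ hcon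
    obtain ⟨T, hT⟩ := monotoneOn_of_deriv_nonneg' (F := fun t => F t - δ * Real.log t)
      (F' := fun t => F' t - δ * t⁻¹) (by
        filter_upwards [hF', eventually_gt_atTop 0] with t ht ht0
        exact ht.sub ((Real.hasDerivAt_log ht0.ne').const_mul δ)) (by
        filter_upwards [hcon, eventually_gt_atTop 0] with t ht ht0
        have : δ * t⁻¹ ≤ F' t := by
          rw [← div_eq_mul_inv, div_le_iff₀ ht0]; linarith
        linarith)
    have h1 : ∀ᶠ t in atTop, F T - δ * Real.log T + δ * Real.log t ≤ F t := by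
      filter_upwards [eventually_ge_atTop T] with t ht
      have := hT (Set.mem_Ici.2 le_rfl) (Set.mem_Ici.2 ht) ht
      simp only at this
      linarith
    have h2 : Tendsto (fun t => F T - δ * Real.log T + δ * Real.log t) atTop atTop :=
      tendsto_atTop_add_const_left _ _ (Real.tendsto_log_atTop.const_mul_atTop hδ)
    exact not_tendsto_nhds_of_tendsto_atTop (tendsto_atTop_mono' _ h1 h2) _ hc
  rcases hK.lim hmem with h | h | ⟨l, h⟩
  · exact absurd (h.eventually_ge_atTop 1) (key F F' c 1 hF' hc one_pos)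
  · refine absurd ?_ (key (fun t => - F t) (fun t => - F' t) (-c) 1
      (hF'.mono fun t ht => ht.neg) hc.neg one_pos)
    filter_upwards [h.eventually_le_atBot (-1)] with t ht
    linarith
  · rcases lt_trichotomy l 0 with hl | hl | hl
    · refine absurd ?_ (key (fun t => - F t) (fun t => - F' t) (-c) (-l / 2)
        (hF'.mono fun t ht => ht.neg) hc.neg (by linarith))
      filter_upwards [h.eventually_lt_const (show l < l / 2 by linarith)] with t ht
      linarith
    · rwa [hl] at h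
    · refine absurd ?_ (key F F' c (l / 2) hF' hc (by linarith))
      filter_upwards [h.eventually_const_lt (show l / 2 < l by linarith)] with t ht
      linarith

end Pool.Agent.Helper87.RAM
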