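import Mathlib

/-!
Branches of simple real zeros of a function of two variables.
-/

open Filter Topology

namespace Pool.Agent.Helper87.RAM

/-- sign change at a simple zero -/
theorem sign_change {f : ℝ → ℝ} {f' x : ℝ} (hf : HasDerivAt f f' x) (h0 : f x = 0) (h' : f' ≠ 0)
    {ε : ℝ} (hε : 0 < ε) :
    ∃ a b, x - ε < a ∧ a < x ∧ x < b ∧ b < x + ε ∧ f a * f b < 0 := by
  have h1 : Tendsto (fun y => slope f x y * f') (𝓝[≠] x) (𝓝 (f' * f')) :=
    (hasDerivAt_iff_tendsto_slope.1 hf).mul_const f'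
  have h2 : ∀ᶠ y in 𝓝[≠] x, 0 < slope f x y * f' :=
    h1.eventually_const_lt (mul_self_pos.2 h')
  have hL : 𝓝[<] x ≤ 𝓝[≠] x := nhdsWithin_mono _ fun y hy => ne_of_lt hy
  have hR : 𝓝[>] x ≤ 𝓝[≠] x := nhdsWithin_mono _ fun y hy => ne_of_gt hy
  obtain ⟨a, ha1, ha2⟩ := ((h2.filter_mono hL).and
    (Ioo_mem_nhdsLT (show x - ε < x by linarith))).exists
  obtain ⟨b, hb1, hb2⟩ := ((h2.filter_mono hR).and
    (Ioo_mem_nhdsGT (show x < x + ε by linarith))).exists
  refine ⟨a, b, ha2.1, ha2.2, hb2.1, hb2.2, ?_⟩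
  have hfa : f a = (a - x) * slope f x a := by
    rw [slope_def_field, h0]
    have : a - x ≠ 0 := by linarith [ha2.2] |> ne_of_lt
    field_simp
    ring
  have hfb : f b = (b - x) * slope f x b := by
    rw [slope_def_field, h0]
    have : b - x ≠ 0 := by linarith [hb2.1] |> ne_of_gt
    field_simp
    ring
  have hss : 0 < slope f x a * slope f x b := by
    have h3 := mul_pos ha1 hb1
    have h4 : slope f x a * f' * (slope f x b * f') = (slope f x a * slope f x b) * (f' * f') := by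
      ring
    rw [h4] at h3
    exact (mul_pos_iff_of_pos_right (mul_self_pos.2 h')).1 h3
  rw [hfa, hfb]
  have h5 : (a - x) * slope f x a * ((b - x) * slope f x b) =
      ((a - x) * (b - x)) * (slope f x a * slope f x b) := by ring
  rw [h5]
  exact mul_neg_of_neg_of_pos (mul_neg_of_neg_of_pos (by linarith [ha2.2]) (by linarith [hb2.1])) hss

theorem exists_branch {P : ℝ → ℝ → ℝ} {T : ℝ}
    (hc : ∀ t > T, ∀ x, ContinuousAt (fun z : ℝ × ℝ => P z.1 z.2) (t, x))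
    (hb : ∀ t > T, ∃ M : ℝ, ∀ᶠ s in 𝓝 t, ∀ x, P s x = 0 → |x| ≤ M)
    (hs : ∀ t > T, ∀ x, P t x = 0 → ∀ ε > 0,
      ∃ a b, x - ε < a ∧ a < x ∧ x < b ∧ b < x + ε ∧ P t a * P t b < 0)
    {t₀ x₀ : ℝ} (ht₀ : T < t₀) (h₀ : P t₀ x₀ = 0) :
    ∃ y : ℝ → ℝ, ∀ t > T, P t (y t) = 0 ∧ ContinuousAt y t := by
  have hcx : ∀ t > T, Continuous (P t) := by
    intro t ht
    rw [continuous_iff_continuousAt]
    intro x
    have h1 : ContinuousAt (fun x : ℝ => ((t, x) : ℝ × ℝ)) x := by fun_prop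
    exact ContinuousAt.comp (g := fun z : ℝ × ℝ => P z.1 z.2) (hc t ht x) h1
  have hct : ∀ t > T, ∀ x, ContinuousAt (fun s => P s x) t := by
    intro t ht x
    have h1 : ContinuousAt (fun s : ℝ => ((s, x) : ℝ × ℝ)) t := by fun_prop
    exact ContinuousAt.comp (g := fun z : ℝ × ℝ => P z.1 z.2)
      (f := fun s : ℝ => ((s, x) : ℝ × ℝ)) (x := t) (hc t ht x) h1
  have persist : ∀ t > T, ∀ x, P t x = 0 → ∀ ε > 0, ∀ᶠ s in 𝓝 t,
      ∃ x', x - ε < x' ∧ x' < x + ε ∧ P s x' = 0 := by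
    intro t ht x hx ε hε
    obtain ⟨a, b, h1, h2, h3, h4, h5⟩ := hs t ht x hx ε hε
    have h6 : ∀ᶠ s in 𝓝 t, P s a * P s b < 0 :=
      ((hct t ht a).mul (hct t ht b)).eventually_lt_const h5
    filter_upwards [h6, Ioi_mem_nhds ht] with s h7 h8
    have hab : a ≤ b := (h2.trans h3).le
    have h9 : ∃ x' ∈ Set.Icc a b, P s x' = 0 := by
      rcases mul_neg_iff.1 h7 with ⟨h10, h11⟩ | ⟨h10, h11⟩
      · exact intermediate_value_Icc' hab (hcx s h8).continuousOn ⟨h11.le, h10.le⟩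
      · exact intermediate_value_Icc hab (hcx s h8).continuousOn ⟨h10.le, h11.le⟩
    obtain ⟨x', hx', hPx'⟩ := h9
    exact ⟨x', by linarith [hx'.1], by linarith [hx'.2], hPx'⟩
  have avoid : ∀ t > T, ∀ a b, (∀ x ∈ Set.Icc a b, P t x ≠ 0) → ∀ᶠ s in 𝓝 t,
      ∀ x ∈ Set.Icc a b, P s x ≠ 0 := by
    intro t ht a b h
    exact isCompact_Icc.eventually_forall_of_forall_eventually (P := fun s x => P s x ≠ 0)
      fun x hx => (hc t ht x).eventually_ne (h x hx)
  -- all parameters have zeros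
  have hall : Set.Ioi T ⊆ {t | T < t ∧ ∃ x, P t x = 0} := by
    refine IsPreconnected.subset_left_of_subset_union (v := {t | T < t ∧ ∀ x, P t x ≠ 0})
      ?_ ?_ ?_ ?_ ⟨t₀, ht₀, ht₀, x₀, h₀⟩ isPreconnected_Ioi
    · rw [isOpen_iff_mem_nhds]
      rintro t ⟨ht, x, hx⟩
      filter_upwards [persist t ht x hx 1 one_pos, Ioi_mem_nhds ht] with s h1 h2
      obtain ⟨x', -, -, h3⟩ := h1
      exact ⟨h2, x', h3⟩
    · rw [isOpen_iff_mem_nhds]
      rintro t ⟨ht, hx⟩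
      obtain ⟨M, hM⟩ := hb t ht
      filter_upwards [hM, avoid t ht (-M) M (fun x _ => hx x), Ioi_mem_nhds ht] with s h1 h2 h3
      refine ⟨h3, fun x h4 => ?_⟩
      have h5 := abs_le.1 (h1 x h4)
      exact h2 x ⟨h5.1, h5.2⟩ h4
    · rw [Set.disjoint_left]
      rintro t ⟨-, x, hx⟩ ⟨-, h⟩
      exact h x hx
    · intro t ht
      by_cases h : ∃ x, P t x = 0
      · exact Or.inl ⟨ht, h⟩
      · push Not at h
        exact Or.inr ⟨ht, h⟩
  set y : ℝ → ℝ := fun t => sSup {x | P t x = 0} with hy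
  have hbdd : ∀ t > T, BddAbove {x | P t x = 0} := by
    intro t ht
    obtain ⟨M, hM⟩ := hb t ht
    exact ⟨M, fun x hx => (abs_le.1 (hM.self_of_nhds x hx)).2⟩
  have hroot : ∀ t > T, P t (y t) = 0 := by
    intro t ht
    have hcl : IsClosed {x | P t x = 0} := isClosed_eq (hcx t ht) continuous_const
    exact hcl.csSup_mem (hall ht).2 (hbdd t ht)
  refine ⟨y, fun t ht => ⟨hroot t ht, ?_⟩⟩
  rw [Metric.continuousAt_iff']
  intro ε hε
  obtain ⟨M, hM⟩ := hb t ht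
  have h1 := persist t ht (y t) (hroot t ht) ε hε
  have h2 := avoid t ht (y t + ε) M (fun x hx h => by
    have : x ≤ y t := le_csSup (hbdd t ht) h
    linarith [hx.1])
  filter_upwards [h1, h2, hM, Ioi_mem_nhds ht] with s h3 h4 h5 h6
  obtain ⟨x', h7, h8, h9⟩ := h3
  have h10 : x' ≤ y s := le_csSup (hbdd s h6) h9
  have h11 := h5 (y s) (hroot s h6)
  rw [Real.dist_eq, abs_lt]
  refine ⟨by linarith, ?_⟩
  by_contra hcon
  push Not at hcon
  exact h4 (y s) ⟨by linarith, (abs_le.1 h11).2⟩ (hroot s h6)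

theorem branch_hasDerivAt {P : ℝ → ℝ → ℝ} {y : ℝ → ℝ} {t px pt : ℝ} (hy : ContinuousAt y t)
    (h0 : ∀ᶠ s in 𝓝 t, P s (y s) = 0) (hpx : HasDerivAt (P t) px (y t)) (hpx0 : px ≠ 0)
    (hpt : Tendsto (fun s => (P s (y s) - P t (y s)) / (s - t)) (𝓝[≠] t) (𝓝 pt)) :
    HasDerivAt y (-pt / px) t := by
  rw [hasDerivAt_iff_tendsto_slope]
  have h1 : ContinuousAt (dslope (P t) (y t)) (y t) :=
    continuousAt_dslope_same.2 hpx.differentiableAt
  have h2 : dslope (P t) (y t) (y t) = px := by rw [dslope_same, hpx.deriv]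
  have h3 : Tendsto (fun s => dslope (P t) (y t) (y s)) (𝓝[≠] t) (𝓝 px) := by
    have := (h1.tendsto).comp hy.tendsto
    rw [h2] at this
    exact this.mono_left nhdsWithin_le_nhds
  have h4 := (hpt.neg).div h3 hpx0
  refine h4.congr' ?_
  have h5 := h0.self_of_nhds
  filter_upwards [nhdsWithin_le_nhds h0, self_mem_nhdsWithin, h3.eventually_ne hpx0]
    with s h6 h7 h8
  have h9 := sub_smul_dslope (P t) (y t) (y s)
  rw [h5, smul_eq_mul, sub_zero] at h9
  have h10 : s - t ≠ 0 := sub_ne_zero.2 h7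
  simp only [Pi.div_apply]
  rw [slope_def_field, h6, ← h9]
  field_simp
  ring

end Pool.Agent.Helper87.RAM
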