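import Pool.Agent.Helper87.RAM.Exp
import Pool.Agent.Helper13.RAM.Alpha

/-!
Maximal Hardy fields without slow elements are closed under exponentials; they contain nothing of
the size of a logarithm.
-/

open Filter Topology Polynomial

namespace Pool.Agent.Helper87.RAM

variable {K L : Subring 𝓖}

theorem noSlow_of_limit (hM : MaxGood K) {V u : ℝ → ℝ}
    (hu : gm u ∈ K)
    (hV : ∀ᶠ t in atTop, HasDerivAt V (u t * V t) t) (hVK : gm V ∉ K)
    (hL : IsHardy (Frac (Adj K (gm V)))) {c : ℝ} (hc : c ≠ 0) (hVc : Tendsto V atTop (𝓝 c)) :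
    NoSlow (Frac (Adj K (gm V))) := by
  have hK := hM.1
  have hP := hM.2.1
  set L := Frac (Adj K (gm V)) with hLdef
  have hKL : K ≤ L := (le_adj _).trans (le_frac _)
  have hVL : gm V ∈ L := le_frac _ (self_mem_adj _)
  refine noSlow_of_sim hP hL hKL fun F hF hF0 => ?_
  obtain ⟨p, q, hp, hq, hq0, hFpq⟩ := exists_quot hF hF0
  have hsim := exp_sub_sim hK hP hL hKL hu hV hVL hVK hc hVc
  obtain ⟨A, hA, h1⟩ := alpha hK hL hKL (root_mem hM) hVL hVK hsim p hp
  obtain ⟨B, hB, h2⟩ := alpha hK hL hKL (root_mem hM) hVL hVK hsim q hq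
  refine ⟨fun t => A t / B t, hK.div_mem hA hB, ?_⟩
  exact ((h1 _ (aeval_pe V p).symm).div (h2 _ (aeval_pe V q).symm)).congr_left hFpq.symm

theorem exp_mem (hM : MaxGood K) (F : ℝ → ℝ) (hF : gm F ∈ K) :
    gm (fun t => Real.exp (F t)) ∈ K := by
  have hK := hM.1
  have hP := hM.2.1
  by_contra hVK
  obtain ⟨u, hu, hFd⟩ := hK.exists_der hF
  set V : ℝ → ℝ := fun t => Real.exp (F t) with hVdef
  have hV0 : ∀ᶠ t in atTop, 0 < V t := Eventually.of_forall fun t => Real.exp_pos _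
  have hV : ∀ᶠ t in atTop, HasDerivAt V (u t * V t) t := by
    filter_upwards [hFd] with t ht
    exact ht.exp.congr_deriv (mul_comm _ _)
  by_cases hfree : Free K V
  · have hL := exp_isHardy hM hV0 hu hV hVK
    have hLP := noSlow_of_free hK hP hV0 hu hV hL hfree
    exact hVK (hM.2.2 _ hL hLP ((le_adj _).trans (le_frac _)) (le_frac _ (self_mem_adj _)))
  · unfold Free at hfree
    push Not at hfree
    obtain ⟨n, hn, A, hA, hsim⟩ := hfree
    obtain ⟨k, rfl⟩ : ∃ k, n = k + 1 := ⟨n - 1, by omega⟩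
    set a : ℝ → ℝ := fun t => |A t| ^ ((k + 1 : ℝ)⁻¹) with ha
    have haK : gm a ∈ K := nthRoot_mem hM A k hA
    have hA0 := hsim.ne_zero_right
    have ha0 : ∀ᶠ t in atTop, 0 < a t := by
      filter_upwards [hA0] with t ht
      exact Real.rpow_pos_of_pos (abs_pos.2 ht) _
    have hapow : ∀ t, a t ^ (k + 1) = |A t| := by
      intro t
      have h3 := Real.rpow_inv_natCast_pow (abs_nonneg (A t)) (Nat.succ_ne_zero k)
      push_cast at h3
      exact h3
    obtain ⟨a', ha'K, ha'⟩ := hK.exists_der haK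
    set V₁ : ℝ → ℝ := fun t => V t / a t with hV₁
    have hV₁0 : ∀ᶠ t in atTop, 0 < V₁ t := by
      filter_upwards [hV0, ha0] with t h1 h2 using div_pos h1 h2
    have hu₁ : gm (fun t => u t - a' t / a t) ∈ K := sub_mem' hu (hK.div_mem ha'K haK)
    have hV₁d : ∀ᶠ t in atTop, HasDerivAt V₁ ((u t - a' t / a t) * V₁ t) t := by
      filter_upwards [hV, ha', ha0] with t h1 h2 h3
      refine (h1.div h2 h3.ne').congr_deriv ?_
      simp only [hV₁]
      field_simp
    have hV₁K : gm V₁ ∉ K := by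
      intro h
      apply hVK
      refine mem_congr ?_ (mul_mem' h haK)
      filter_upwards [ha0] with t ht
      simp only [hV₁]
      rw [div_mul_cancel₀ _ ht.ne']
    have hL := exp_isHardy hM hV₁0 hu₁ hV₁d hV₁K
    have hV₁L : gm V₁ ∈ Frac (Adj K (gm V₁)) := le_frac _ (self_mem_adj _)
    obtain ⟨c₀, hc₀, h1⟩ := hsim
    have h2 : Tendsto (fun t => V₁ t ^ (k + 1)) atTop (𝓝 |c₀|) := by
      refine h1.abs.congr fun t => ?_
      simp only [hV₁]
      rw [div_pow, hapow, abs_div, abs_of_pos (pow_pos (Real.exp_pos (F t)) _)]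
    obtain ⟨c, hc, h3⟩ := tendsto_of_pow hL hV₁L hn (abs_ne_zero.2 hc₀) h2
    have hLP := noSlow_of_limit hM hu₁ hV₁d hV₁K hL hc h3
    exact hV₁K (hM.2.2 _ hL hLP ((le_adj _).trans (le_frac _)) hV₁L)

theorem gap (hK : IsHardy K) (hP : NoSlow K) {U : ℝ → ℝ} (hU : gm U ∈ K) {C : ℝ}
    (h : ∀ᶠ t in atTop, 1 / 2 * Real.log t ≤ U t ∧ U t ≤ C * Real.log t) : False := by
  have htop : Tendsto U atTop atTop :=
    tendsto_atTop_mono' _ (h.mono fun t ht => ht.1)
      (Real.tendsto_log_atTop.const_mul_atTop (by norm_num))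
  have hinv : Tendsto (fun t => (U t)⁻¹) atTop (𝓝 0) := htop.inv_tendsto_atTop
  have hU0 : ∀ᶠ t in atTop, 0 < U t := htop.eventually_gt_atTop 0
  obtain ⟨q, hq, h1⟩ := hP.decay hK (hK.inv_mem hU)
    (hU0.mono fun t ht => inv_ne_zero ht.ne') hinv
  have h2 : Tendsto (fun t : ℝ => Real.log t / t ^ q) atTop (𝓝 0) :=
    (isLittleO_log_rpow_atTop hq).tendsto_div_nhds_zero
  have h3 := h2.const_mul C
  rw [mul_zero] at h3
  obtain ⟨t, h4, h5, h6, h7, h8⟩ := ((h3.eventually_lt_const (zero_lt_one' ℝ)).and (h.and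
    (h1.and (hU0.and (eventually_gt_atTop 0))))).exists
  have h9 : 0 < t ^ q := Real.rpow_pos_of_pos h8 _
  rw [mul_div_assoc', div_lt_one h9] at h4
  rw [abs_of_pos (inv_pos.2 h7), Real.rpow_neg h8.le] at h6
  have h10 : t ^ q ≤ U t := (inv_le_inv₀ h7 h9).1 h6
  linarith [h5.2]

end Pool.Agent.Helper87.RAM
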