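import Mathlib

/-!
Planar risk-aware path planning and real random access machines with exponentials: definitions.
The plane is `ℂ`.
-/

open MeasureTheory Set

namespace Pool.Agent.Helper87.RAM

/-- the interior of the obstacles -/
def Xobs (Pobs : Set ℂ) : Set ℂ := interior Pobs

/-- the risk region -/
def Xrisk (Pobs Prisk : Set ℂ) : Set ℂ := interior Prisk ∪ (Pobs ∩ Prisk)

/-- the safe region -/
def Xsafe (Pobs Prisk : Set ℂ) : Set ℂ := (Xrisk Pobs Prisk ∪ Xobs Pobs)ᶜ

/-- `γ` is a collision-free trajectory of length `T` from `s` to `g` traversed at unit speed. -/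
structure IsTraj (Pobs Prisk : Set ℂ) (s g : ℂ) (T : ℝ) (γ : ℝ → ℂ) : Prop where
  nonneg : 0 ≤ T
  cont : ContinuousOn γ (Icc 0 T)
  speed : HasUnitSpeedOn γ (Icc 0 T)
  start : γ 0 = s
  finish : γ T = g
  free : ∀ t ∈ Icc 0 T, γ t ∈ Xsafe Pobs Prisk ∪ Xrisk Pobs Prisk

/-- the current exposure time: the time since the last visit to the safe region -/
noncomputable def exposure (Pobs Prisk : Set ℂ) (γ : ℝ → ℂ) (t : ℝ) : ℝ :=
  t - sSup {r | 0 ≤ r ∧ r ≤ t ∧ γ r ∈ Xsafe Pobs Prisk}

/-- the cost of a trajectory -/
noncomputable def cost (Pobs Prisk : Set ℂ) (T : ℝ) (γ : ℝ → ℂ) : ℝ :=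
  ∫ t in (0 : ℝ)..T, Real.exp (exposure Pobs Prisk γ t)

/-- the infimum of the costs of the collision-free trajectories from `s` to `g` -/
noncomputable def OPT (Pobs Prisk : Set ℂ) (s g : ℂ) : ℝ :=
  sInf {c | ∃ T γ, IsTraj Pobs Prisk s g T γ ∧ c = cost Pobs Prisk T γ}

/-- the trajectory `γ` on `[0, T]` runs through the points `pts` in this order, going from each
point to the next one along the segment between them -/
def Follows (pts : List ℂ) (T : ℝ) (γ : ℝ → ℂ) : Prop :=
  pts ≠ [] ∧ ∃ τ : ℕ → ℝ, Monotone τ ∧ τ 0 = 0 ∧ τ (pts.length - 1) = T ∧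
    (∀ (i : ℕ) (h : i < pts.length), γ (τ i) = pts[i]) ∧
    ∀ (i : ℕ) (h : i + 1 < pts.length), ∀ t ∈ Icc (τ i) (τ (i + 1)),
      γ t ∈ segment ℝ pts[i] pts[i + 1]

/-- Instructions of a real random access machine with set of states `Q`: registers are indexed by
natural numbers and hold real numbers. -/
inductive Instr (Q : Type)
  /-- `r_i := c` -/
  | const (i : ℕ) (c : ℝ) (q : Q)
  /-- `r_i := r_j + r_k` -/
  | add (i j k : ℕ) (q : Q)
  /-- `r_i := r_j - r_k` -/
  | sub (i j k : ℕ) (q : Q)
  /-- `r_i := r_j * r_k` -/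
  | mul (i j k : ℕ) (q : Q)
  /-- `r_i := r_j / r_k` -/
  | div (i j k : ℕ) (q : Q)
  /-- `r_i := exp r_j` -/
  | exp (i j : ℕ) (q : Q)
  /-- `r_i := |r_j| ^ (1/(k+1))` -/
  | root (i j k : ℕ) (q : Q)
  /-- if `r_i ≤ r_j` go to `q`, else to `q'` -/
  | test (i j : ℕ) (q q' : Q)
  /-- stop, and output the points `(r_i, r_j)` for the pairs `(i, j)` of the list -/
  | halt (out : List (ℕ × ℕ))

/-- A real random access machine. The set of states may be infinite (so that it may also encode
the contents of integer registers, pointers, and so on). -/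
structure Machine where
  Q : Type
  start : Q
  prog : Q → Instr Q

/-- The output of the machine started in state `q` with register contents `r`, if it stops within
`n` steps. -/
noncomputable def Machine.run (M : Machine) : ℕ → M.Q → (ℕ → ℝ) → Option (List ℂ)
  | 0, _, _ => none
  | n + 1, q, r => match M.prog q with
    | .const i c q' => M.run n q' (Function.update r i c)
    | .add i j k q' => M.run n q' (Function.update r i (r j + r k))
    | .sub i j k q' => M.run n q' (Function.update r i (r j - r k))
    | .mul i j k q' => M.run n q' (Function.update r i (r j * r k))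
    | .div i j k q' => M.run n q' (Function.update r i (r j / r k))
    | .exp i j q' => M.run n q' (Function.update r i (Real.exp (r j)))
    | .root i j k q' => M.run n q' (Function.update r i (|r j| ^ ((k + 1 : ℝ)⁻¹)))
    | .test i j q' q'' => if r i ≤ r j then M.run n q' r else M.run n q'' r
    | .halt out => some (out.map fun p => (⟨r p.1, r p.2⟩ : ℂ))

/-- The input: the coordinates of the vertices `A`, `B`, `D` of the triangle, of the start `s`
and the goal `g`, and the number `ε`, are in the registers `0, …, 10`; the others hold `0`. -/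
noncomputable def input (A B D s g : ℂ) (ε : ℝ) (i : ℕ) : ℝ :=
  [A.re, A.im, B.re, B.im, D.re, D.im, s.re, s.im, g.re, g.im, ε].getD i 0

/-- The machine `M`, started on the instance with no obstacle and the single risk triangle
`A B D`, start `s` and goal `g`, and with the number `ε`, stops within `N` steps and outputs the
successive vertices of a collision-free path from `s` to `g` of cost at most `C * OPT`. -/
def Succeeds (M : Machine) (N : ℕ) (ε C : ℝ) (A B D s g : ℂ) : Prop :=
  ∃ pts : List ℂ, M.run N M.start (input A B D s g ε) = some pts ∧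
    ∃ (T : ℝ) (γ : ℝ → ℂ), IsTraj ∅ (convexHull ℝ {A, B, D}) s g T γ ∧ Follows pts T γ ∧
      cost ∅ (convexHull ℝ {A, B, D}) T γ ≤ C * OPT ∅ (convexHull ℝ {A, B, D}) s g

/-! ### The instances used in the proof: a single risk triangle, no obstacle -/

/-- the horizontal coordinate of the start and goal -/
noncomputable def XX (z : ℝ) : ℝ := Real.exp z / 2
/-- the slope of the upper side of the triangle -/
noncomputable def th (z : ℝ) : ℝ := 2 * z * Real.exp (-z)
/-- the risk triangle -/
noncomputable def tri (z : ℝ) : Set ℂ := convexHull ℝ {(0 : ℂ), ⟨Real.exp z, 0⟩, ⟨Real.exp z, 2 * z⟩}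
/-- the start, on the lower side -/
noncomputable def ss (z : ℝ) : ℂ := ⟨Real.exp z / 2, 0⟩
/-- the goal, on the upper side -/
noncomputable def gg (z : ℝ) : ℂ := ⟨Real.exp z / 2, z⟩

end Pool.Agent.Helper87.RAM
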