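import Pool.Agent.Helper87.RAM.Roots

/-!
Exponential extensions of maximal Hardy fields without slow elements.
-/

open Filter Topology Polynomial

namespace Pool.Agent.Helper87.RAM

variable {K L : Subring 𝓖}

/-- an exponential outside `K` is eventually different from each element of `K` -/
theorem exp_ne (hK : IsHardy K) {V u : ℝ → ℝ} (hV0 : ∀ᶠ t in atTop, 0 < V t) (hu : gm u ∈ K)
    (hV : ∀ᶠ t in atTop, HasDerivAt V (u t * V t) t) (hVK : gm V ∉ K) {b : ℝ → ℝ}
    (hb : gm b ∈ K) : ∀ᶠ t in atTop, V t ≠ b t := by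
  rcases hK.sign hb with h | h | h
  · filter_upwards [h, hV0] with t h1 h2
    rw [h1]; exact h2.ne'
  · obtain ⟨b', hb', hbd⟩ := hK.exists_der hb
    have hd : ∀ᶠ t in atTop, HasDerivAt (fun t => Real.log (V t) - Real.log (b t))
        (u t - b' t / b t) t := by
      filter_upwards [h, hV0, hV, hbd] with t h1 h2 h3 h4
      have h5 := (h3.log h2.ne').sub (h4.log h1.ne')
      rwa [mul_div_assoc, div_self h2.ne', mul_one] at h5
    have hmem : gm (fun t => u t - b' t / b t) ∈ K := sub_mem' hu (hK.div_mem hb' hb)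
    rcases hK.sign hmem with h1 | h1 | h1
    · obtain ⟨c, hc⟩ := const_of_deriv_zero' hd h1
      exfalso
      apply hVK
      refine mem_congr ?_ (mul_mem' (hK.const (Real.exp c)) hb)
      filter_upwards [hc, h, hV0] with t h2 h3 h4
      have h5 : Real.log (V t) = c + Real.log (b t) := by linarith
      rw [← Real.exp_log h4, h5, Real.exp_add, Real.exp_log h3]
    · obtain ⟨T, hT⟩ := strictMonoOn_of_deriv_pos' hd h1
      have h2 : ∀ᶠ t in atTop, Real.log (V t) - Real.log (b t) ≠ 0 := by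
        by_contra hcon
        rw [not_eventually] at hcon
        obtain ⟨t, h3, h4⟩ := (hcon.and_eventually (eventually_ge_atTop T)).exists
        obtain ⟨s, h5, h6⟩ := (hcon.and_eventually (eventually_gt_atTop t)).exists
        push Not at h3 h5
        have := hT (Set.mem_Ici.2 h4) (Set.mem_Ici.2 (h4.trans h6.le)) h6
        simp only [h3, h5] at this
        exact lt_irrefl _ this
      filter_upwards [h2] with t h3 h4
      exact h3 (by rw [h4, sub_self])
    · obtain ⟨T, hT⟩ := strictMonoOn_of_deriv_pos'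
        (F := fun t => -(Real.log (V t) - Real.log (b t))) (hd.mono fun t ht => ht.neg)
        (h1.mono fun t ht => by linarith)
      have h2 : ∀ᶠ t in atTop, Real.log (V t) - Real.log (b t) ≠ 0 := by
        by_contra hcon
        rw [not_eventually] at hcon
        obtain ⟨t, h3, h4⟩ := (hcon.and_eventually (eventually_ge_atTop T)).exists
        obtain ⟨s, h5, h6⟩ := (hcon.and_eventually (eventually_gt_atTop t)).exists
        push Not at h3 h5
        have := hT (Set.mem_Ici.2 h4) (Set.mem_Ici.2 (h4.trans h6.le)) h6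
        simp only [h3, h5] at this
        exact lt_irrefl _ this
      filter_upwards [h2] with t h3 h4
      exact h3 (by rw [h4, sub_self])
  · filter_upwards [h, hV0] with t h1 h2
    exact (h1.trans h2).ne'

/-- elements different from all elements of `K` satisfy no polynomial equation -/
theorem pe_ne_zero (hM : MaxGood K) {V : ℝ → ℝ}
    (hne : ∀ b : ℝ → ℝ, gm b ∈ K → ∀ᶠ t in atTop, V t ≠ b t) (p : K[X]) (hp : p ≠ 0) :
    ∀ᶠ t in atTop, pe p t (V t) ≠ 0 := by
  have hK := hM.1
  let _ := hK.field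
  induction p using WfDvdMonoid.induction_on_irreducible with
  | zero => exact absurd rfl hp
  | unit u hu => exact (eventually_ne_of_unit hu).mono fun t ht => ht _
  | mul a i ha hi ih =>
    have h1 : ∀ᶠ t in atTop, pe i t (V t) ≠ 0 := by
      by_contra hcon
      rw [not_eventually] at hcon
      obtain ⟨b, hb⟩ := root_mem hM i hi.ne_zero (hcon.mono fun t ht => ⟨V t, not_not.1 ht⟩)
      obtain ⟨q, hq⟩ := dvd_iff_isRoot.2 hb
      have hqu : IsUnit q := by
        rcases hi.isUnit_or_isUnit hq with h2 | h2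
        · exact absurd h2 (irreducible_X_sub_C b).not_isUnit
        · exact h2
      have h3 : ∀ᶠ t in atTop, pe i t (V t) ≠ 0 := by
        filter_upwards [pe_mul (X - C b) q, eventually_ne_of_unit hqu,
          pe_X_sub_C b (F := rep (b : 𝓖)) (gm_rep _),
          hne (rep (b : 𝓖)) (by rw [gm_rep]; exact b.2)] with t h4 h5 h6 h7
        rw [hq, h4, h6]
        exact mul_ne_zero (sub_ne_zero.2 h7) (h5 _)
      exact hcon (h3.mono fun t ht => not_not.2 ht)
    filter_upwards [h1, ih ha, pe_mul i a] with t h2 h3 h4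
    rw [h4]
    exact mul_ne_zero h2 h3

/-- the exponential extension is a Hardy field -/
theorem exp_isHardy (hM : MaxGood K) {V u : ℝ → ℝ} (hV0 : ∀ᶠ t in atTop, 0 < V t)
    (hu : gm u ∈ K) (hV : ∀ᶠ t in atTop, HasDerivAt V (u t * V t) t) (hVK : gm V ∉ K) :
    IsHardy (Frac (Adj K (gm V))) := by
  have hK := hM.1
  refine frac_isHardy ?_ (fun c => le_adj _ (hK.const c)) (le_adj _ hK.id) ?_
  · rintro a ⟨p, rfl⟩ ha
    have hp : p ≠ 0 := by
      rintro rfl
      exact ha (map_zero _)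
    change IsUnit (aeval (gm V) p)
    rw [aeval_pe]
    exact isUnit_gm (pe_ne_zero hM (fun b hb => exp_ne hK hV0 hu hV hVK hb) p hp)
  · rintro a ⟨p, rfl⟩
    refine (hasDer_aeval hK (le_adj _) (self_mem_adj (gm V)) ?_ p).1.mono (le_frac _)
    exact ⟨V, fun t => u t * V t, rfl, mul_mem' (le_adj _ hu) (self_mem_adj _), hV⟩

/-- elements of the extension are quotients -/
theorem exists_quot {V F : ℝ → ℝ} (hF : gm F ∈ Frac (Adj K (gm V)))
    (hF0 : ∀ᶠ t in atTop, F t ≠ 0) :
    ∃ p q : K[X], p ≠ 0 ∧ q ≠ 0 ∧ (∀ᶠ t in atTop, pe q t (V t) ≠ 0) ∧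
      F =ᶠ[atTop] fun t => pe p t (V t) / pe q t (V t) := by
  obtain ⟨c, ⟨q, rfl⟩, hcu, ⟨p, hp⟩⟩ := hF
  change IsUnit (aeval (gm V) q) at hcu
  change aeval (gm V) p = gm F * aeval (gm V) q at hp
  rw [aeval_pe] at hcu
  rw [aeval_pe, aeval_pe, ← gm_mul, gm_eq] at hp
  obtain ⟨v, hv⟩ := hcu.exists_right_inv
  have hq0 : ∀ᶠ t in atTop, pe q t (V t) ≠ 0 := by
    induction v using Germ.inductionOn with
    | h v =>
      have h1 : (fun t => pe q t (V t) * v t) =ᶠ[atTop] fun _ => 1 := by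
        rw [← gm_eq, gm_mul, gm_one]; exact hv
      filter_upwards [h1] with t ht h0
      rw [h0, zero_mul] at ht
      exact zero_ne_one ht
  refine ⟨p, q, ?_, ?_, hq0, ?_⟩
  · rintro rfl
    obtain ⟨t, h1, h2, h3⟩ := (hp.and (hq0.and hF0)).exists
    have h4 : pe (0 : K[X]) t (V t) = 0 := by simp [pe]
    have h5 : pe (0 : K[X]) t (V t) = F t * pe q t (V t) := h1
    rw [h4] at h5
    exact mul_ne_zero h3 h2 h5.symm
  · rintro rfl
    obtain ⟨t, h1⟩ := hq0.exists
    exact h1 (by simp [pe])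
  · filter_upwards [hp, hq0] with t h1 h2
    rw [h1, mul_div_assoc, div_self h2, mul_one]

/-- if each element of `L` has the magnitude of an element of `K` -/
theorem noSlow_of_sim (hP : NoSlow K) (hL : IsHardy L) (hKL : K ≤ L)
    (h : ∀ F : ℝ → ℝ, gm F ∈ L → (∀ᶠ t in atTop, F t ≠ 0) → ∃ A : ℝ → ℝ, gm A ∈ K ∧ Sim F A) :
    NoSlow L := by
  intro F hF hF0 hslow
  obtain ⟨A, hA, hsim⟩ := h F hF hF0
  have h1 := hL.sim_logDeriv hF (hKL hA) hsim
  have h2 : Tendsto (fun t => t * logDeriv A t) atTop (𝓝 0) := by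
    have h3 := hslow.sub h1
    rw [sub_zero] at h3
    exact h3.congr fun t => by ring
  obtain ⟨c, hc, h4⟩ := hP A hA hsim.ne_zero_right h2
  exact hsim.tendsto_const hc h4

/-- the case of a free exponential -/
theorem noSlow_of_free (hK : IsHardy K) (hP : NoSlow K) {V u : ℝ → ℝ}
    (hV0 : ∀ᶠ t in atTop, 0 < V t) (hu : gm u ∈ K)
    (hV : ∀ᶠ t in atTop, HasDerivAt V (u t * V t) t)
    (hL : IsHardy (Frac (Adj K (gm V)))) (hfree : Free K V) : NoSlow (Frac (Adj K (gm V))) := by
  set L := Frac (Adj K (gm V)) with hLdef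
  have hKL : K ≤ L := (le_adj _).trans (le_frac _)
  have hVL : gm V ∈ L := le_frac _ (self_mem_adj _)
  have hV0' : ∀ᶠ t in atTop, V t ≠ 0 := hV0.mono fun t ht => ht.ne'
  intro F hF hF0 hslow
  obtain ⟨p, q, hp, hq, hq0, hFpq⟩ := exists_quot hF hF0
  obtain ⟨A, m, hAK, hA0, hA⟩ := dominant hL hK hKL hVL hV0' hfree p hp
  obtain ⟨B, l, hBK, hB0, hB⟩ := dominant hL hK hKL hVL hV0' hfree q hq
  have h1 := hA (fun t => pe p t (V t)) (aeval_pe V p).symm
  have h2 := hB (fun t => pe q t (V t)) (aeval_pe V q).symm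
  have h3 : Sim F (fun t => (A t * V t ^ m) / (B t * V t ^ l)) :=
    (h1.div h2).congr_left hFpq.symm
  set G : ℝ → ℝ := fun t => (A t * V t ^ m) / (B t * V t ^ l) with hG
  have hGL : gm G ∈ L := hL.div_mem (mul_mem' (hKL hAK) (pow_mem' hVL m))
    (mul_mem' (hKL hBK) (pow_mem' hVL l))
  set w : ℝ → ℝ := fun t => logDeriv A t - logDeriv B t + ((m : ℝ) - l) * u t with hw
  have hwK : gm w ∈ K := add_mem' (sub_mem' (hK.logDeriv_mem hAK) (hK.logDeriv_mem hBK))
    (mul_mem' (hK.const _) hu)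
  have hGd : ∀ᶠ t in atTop, HasDerivAt G (w t * G t) t := by
    filter_upwards [hA0, hB0, hV0', hV, hK.diff hAK, hK.diff hBK] with t a1 a2 a3 a4 a5 a6
    have e1 := (a5.hasDerivAt.mul (a4.pow m)).div (a6.hasDerivAt.mul (a4.pow l))
      (mul_ne_zero a2 (pow_ne_zero _ a3))
    refine e1.congr_deriv ?_
    simp only [hw, hG, logDeriv_apply, Pi.mul_apply, Pi.pow_apply]
    have e2 : ∀ n : ℕ, (n : ℝ) * V t ^ (n - 1) * (u t * V t) = n * u t * V t ^ n := by
      intro n
      rcases Nat.eq_zero_or_pos n with rfl | hn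
      · simp
      · obtain ⟨k, rfl⟩ : ∃ k, n = k + 1 := ⟨n - 1, by omega⟩
        rw [Nat.add_sub_cancel, pow_succ]; ring
    rw [e2, e2]
    field_simp
    ring
  have hG0 : ∀ᶠ t in atTop, G t ≠ 0 := h3.ne_zero_right
  have h4 := hL.sim_logDeriv hF hGL h3
  have h5 : Tendsto (fun t => t * w t) atTop (𝓝 0) := by
    have h6 := hslow.sub h4
    rw [sub_zero] at h6
    refine h6.congr' ?_
    filter_upwards [hGd, hG0] with t a1 a2
    have a3 : logDeriv G t = w t := by
      rw [logDeriv_apply, a1.deriv, mul_div_assoc, div_self a2, mul_one]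
    rw [a3]; ring
  have hconv : ∃ c, c ≠ 0 ∧ Tendsto (fun t => |G t|) atTop (𝓝 c) := by
    have htw : gm (fun t => t * w t) ∈ K := mul_mem' hK.id hwK
    rcases hK.eq_zero_or htw with h6 | h6
    · exact tendsto_of_logDeriv hG0 hGd (hK.sign hwK) one_pos (M := 1) (by
        filter_upwards [h6, eventually_gt_atTop 0] with t a1 a2
        rw [a1, abs_zero, one_mul]
        exact (Real.rpow_pos_of_pos a2 _).le)
    · obtain ⟨r, hr, h7⟩ := hP.decay hK htw h6 h5
      exact tendsto_of_logDeriv hG0 hGd (hK.sign hwK) hr (M := 1) (by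
        filter_upwards [h7] with t a1
        rwa [one_mul])
  obtain ⟨c, hc, h6⟩ := hconv
  obtain ⟨e, he, h7⟩ := h3
  have h8 : Tendsto (fun t => |F t|) atTop (𝓝 (|e| * c)) := by
    refine (h7.abs.mul h6).congr' ?_
    filter_upwards [hG0] with t a1
    rw [abs_div, div_mul_cancel₀]
    exact abs_ne_zero.2 a1
  have hno : ¬ Tendsto (fun t => |F t|) atTop atTop := fun h =>
    not_tendsto_nhds_of_tendsto_atTop h _ h8
  rcases hL.lim hF with h9 | h9 | ⟨d, h9⟩
  · exact absurd (tendsto_abs_atTop_atTop.comp h9) hno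
  · exact absurd (tendsto_abs_atBot_atTop.comp h9) hno
  · refine ⟨d, ?_, h9⟩
    rintro rfl
    have h10 := h9.abs
    rw [abs_zero] at h10
    exact mul_ne_zero (abs_ne_zero.2 he) hc (tendsto_nhds_unique h8 h10)

/-- the case of an exponential with a finite limit: distances to elements of `K` -/
theorem exp_sub_sim (hK : IsHardy K) (hP : NoSlow K) (hL : IsHardy L) (hKL : K ≤ L)
    {V u : ℝ → ℝ} (hu : gm u ∈ K)
    (hV : ∀ᶠ t in atTop, HasDerivAt V (u t * V t) t) (hVL : gm V ∈ L) (hVK : gm V ∉ K) {c : ℝ}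
    (hc : c ≠ 0) (hVc : Tendsto V atTop (𝓝 c)) (B : ℝ → ℝ) (hB : gm B ∈ K) :
    ∃ A : ℝ → ℝ, gm A ∈ K ∧ Sim (fun t => V t - B t) A := by
  set Y : ℝ → ℝ := fun t => V t - B t with hY
  have hYL : gm Y ∈ L := sub_mem' hVL (hKL hB)
  have hYne : gm Y ≠ 0 := by
    intro h0
    apply hVK
    rw [← gm_zero, gm_eq] at h0
    refine mem_congr ?_ hB
    filter_upwards [h0] with t ht
    exact (sub_eq_zero.1 ht).symm
  have hY0 : ∀ᶠ t in atTop, Y t ≠ 0 := hL.ne_zero hYL hYne
  rcases hK.lim hB with hlim | hlim | ⟨d, hlim⟩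
  · refine ⟨B, hB, -1, by norm_num, ?_⟩
    have h1 : Tendsto (fun t => V t / B t - 1) atTop (𝓝 (0 - 1)) :=
      (hVc.div_atTop hlim).sub_const 1
    rw [zero_sub] at h1
    refine h1.congr' ?_
    filter_upwards [hlim.eventually_ne_atTop 0] with t ht
    rw [hY]; simp only; rw [sub_div, div_self ht]
  · refine ⟨B, hB, -1, by norm_num, ?_⟩
    have h1 : Tendsto (fun t => V t / B t - 1) atTop (𝓝 (0 - 1)) :=
      (hVc.div_atBot hlim).sub_const 1
    rw [zero_sub] at h1
    refine h1.congr' ?_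
    filter_upwards [hlim.eventually_ne_atBot 0] with t ht
    rw [hY]; simp only; rw [sub_div, div_self ht]
  by_cases hdc : d = c
  swap
  · refine ⟨fun _ => 1, hK.const 1, c - d, sub_ne_zero.2 (Ne.symm hdc), ?_⟩
    simpa using hVc.sub hlim
  rw [hdc] at hlim
  have hYz : Tendsto Y atTop (𝓝 0) := by
    have := hVc.sub hlim
    rwa [sub_self] at this
  obtain ⟨B', hB'K, hB'⟩ := hK.exists_der hB
  set b : ℝ → ℝ := fun t => u t * B t - B' t with hb
  have hbK : gm b ∈ K := sub_mem' (mul_mem' hu hB) hB'K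
  have hYd : ∀ᶠ t in atTop, HasDerivAt Y (u t * Y t + b t) t := by
    filter_upwards [hV, hB'] with t h1 h2
    refine (h1.sub h2).congr_deriv ?_
    simp only [hY, hb]; ring
  have hb0 : ∀ᶠ t in atTop, b t ≠ 0 := by
    rcases hK.eq_zero_or hbK with h | h
    · exfalso
      have hBne : ∀ᶠ t in atTop, B t ≠ 0 := hlim.eventually_ne hc
      obtain ⟨k, hk⟩ := const_of_deriv_zero' (F := fun t => V t / B t)
        (F' := fun t => (u t * V t * B t - V t * B' t) / B t ^ 2) (by
          filter_upwards [hV, hB', hBne] with t h1 h2 h3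
          exact h1.div h2 h3) (by
          filter_upwards [h] with t h1
          simp only [hb] at h1
          have : u t * V t * B t - V t * B' t = V t * (u t * B t - B' t) := by ring
          rw [this, h1, mul_zero, zero_div])
      apply hVK
      refine mem_congr ?_ (mul_mem' (hK.const k) hB)
      filter_upwards [hk, hBne] with t h1 h2
      rw [← h1, div_mul_cancel₀ _ h2]
    · exact h
  have hYdL : gm (fun t => u t * Y t + b t) ∈ L :=
    add_mem' (mul_mem' (hKL hu) hYL) (hKL hbK)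
  -- the size of `t u`
  have htu : Tendsto (fun t => t * u t) atTop (𝓝 0) := by
    refine (hL.small_logDeriv hVL hc hVc).congr' ?_
    filter_upwards [hV, hVc.eventually_ne hc] with t h1 h2
    rw [logDeriv_apply, h1.deriv, mul_div_assoc, div_self h2, mul_one]
  set R : ℝ → ℝ := fun t => Y t * u t / b t with hR
  have hRL : gm R ∈ L := hL.div_mem (mul_mem' hYL (hKL hu)) (hKL hbK)
  have hinfty : ¬ Tendsto (fun t => (R t)⁻¹) atTop (𝓝 0) ∨ ¬ ∀ᶠ t in atTop, R t ≠ 0 := by
    by_contra hcon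
    push Not at hcon
    obtain ⟨h1, h2⟩ := hcon
    have hu0 : ∀ᶠ t in atTop, t * u t ≠ 0 := by
      filter_upwards [h2, eventually_gt_atTop 0] with t h3 h4 h5
      rcases mul_eq_zero.1 h5 with h6 | h6
      · exact h4.ne' h6
      · exact h3 (by simp only [hR, h6, mul_zero, zero_div])
    obtain ⟨q, hq, h3⟩ := hP.decay hK (mul_mem' hK.id hu) hu0 htu
    have h4 : gm (fun t => u t + b t / Y t) ∈ L := add_mem' (hKL hu) (hL.div_mem (hKL hbK) hYL)
    obtain ⟨e, he, h5⟩ := tendsto_of_logDeriv (V := Y) (u := fun t => u t + b t / Y t) hY0 (by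
      filter_upwards [hYd, hY0] with t a1 a2
      refine a1.congr_deriv ?_
      field_simp) (hL.sign h4) hq (M := 2) (by
      filter_upwards [h3, h1.eventually (Metric.ball_mem_nhds 0 one_pos), h2, hY0, hu0]
        with t a1 a2 a3 a4 a5
      rw [dist_zero_right, Real.norm_eq_abs] at a2
      have a6 : u t ≠ 0 := fun h => a5 (by rw [h, mul_zero])
      have a7 : t * (u t + b t / Y t) = (t * u t) * (1 + (R t)⁻¹) := by
        simp only [hR]
        rw [inv_div]
        field_simp
      rw [a7, abs_mul]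
      have a8 : |1 + (R t)⁻¹| ≤ 2 := by
        refine (abs_add_le _ _).trans ?_
        rw [abs_one]; linarith
      calc |t * u t| * |1 + (R t)⁻¹| ≤ t ^ (-q) * 2 :=
            mul_le_mul a1 a8 (abs_nonneg _) ((abs_nonneg _).trans a1)
        _ = 2 * t ^ (-q) := by ring)
    have h6 := hYz.abs
    rw [abs_zero] at h6
    exact he (tendsto_nhds_unique h5 h6)
  rcases hL.lim hRL with h1 | h1 | ⟨r, h1⟩
  · exfalso
    rcases hinfty with h2 | h2
    · exact h2 h1.inv_tendsto_atTop
    · exact h2 (h1.eventually_ne_atTop 0)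
  · exfalso
    rcases hinfty with h2 | h2
    · exact h2 h1.inv_tendsto_atBot
    · exact h2 (h1.eventually_ne_atBot 0)
  by_cases hr : r = 0
  swap
  · refine ⟨fun t => b t / u t, hK.div_mem hbK hu, r, hr, h1.congr fun t => ?_⟩
    rw [div_div_eq_mul_div]
  rw [hr] at h1
  -- now `Y' ~ b`
  have hYb : Tendsto (fun t => (u t * Y t + b t) / b t) atTop (𝓝 1) := by
    have h2 := h1.add_const 1
    rw [zero_add] at h2
    refine h2.congr' ?_
    filter_upwards [hb0] with t a1
    simp only [hR]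
    rw [add_div, div_self a1, mul_comm (u t)]
  have htY : Tendsto (fun t => t * (u t * Y t + b t)) atTop (𝓝 0) := hL.small hYL hYd hYz
  set E : ℝ → ℝ := fun t => t * b t with hE
  have hEK : gm E ∈ K := mul_mem' hK.id hbK
  have hE0 : ∀ᶠ t in atTop, E t ≠ 0 := by
    filter_upwards [hb0, eventually_gt_atTop 0] with t a1 a2
    exact mul_ne_zero a2.ne' a1
  have hEz : Tendsto E atTop (𝓝 0) := by
    have h2 := htY.div hYb one_ne_zero
    rw [zero_div] at h2
    refine h2.congr' ?_
    filter_upwards [hb0, hYb.eventually_ne one_ne_zero] with t a1 a2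
    simp only [Pi.div_apply, hE]
    have a3 : u t * Y t + b t ≠ 0 := fun h => a2 (by rw [h, zero_div])
    field_simp
  have hTE := hP.neg hK hEK hE0 hEz
  set w : ℝ → ℝ := fun t => (t * logDeriv E t)⁻¹ with hw
  have hwK : gm w ∈ K := hK.inv_mem (hK.tlogDeriv_mem hEK)
  have hwlim : ∃ e, Tendsto w atTop (𝓝 e) := by
    rcases hTE with h2 | ⟨e, he, h2⟩
    · exact ⟨0, h2.inv_tendsto_atBot⟩
    · exact ⟨e⁻¹, h2.inv₀ he.ne⟩
  have hTne : ∀ᶠ t in atTop, t * logDeriv E t ≠ 0 := by
    rcases hTE with h2 | ⟨e, he, h2⟩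
    · exact h2.eventually_ne_atBot 0
    · exact h2.eventually_ne he.ne
  obtain ⟨e, he⟩ := hwlim
  obtain ⟨w', hw'K, hw'⟩ := hK.exists_der hwK
  have htw' : Tendsto (fun t => t * w' t) atTop (𝓝 0) := hK.small hwK hw' he
  set H : ℝ → ℝ := fun t => E t * w t with hH
  have hHd : ∀ᶠ t in atTop, HasDerivAt H (b t * (1 + t * w' t)) t := by
    filter_upwards [hw', hK.diff hEK, hTne, hE0, eventually_gt_atTop 0] with t a1 a2 a3 a4 a5
    refine (a2.hasDerivAt.mul a1).congr_deriv ?_
    simp only [hw]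
    rw [logDeriv_apply] at a3 ⊢
    have a6 : deriv E t ≠ 0 := fun h => a3 (by rw [h, zero_div, mul_zero])
    have a7 : deriv E t * (t * (deriv E t / E t))⁻¹ = b t := by
      simp only [hE] at a4 a6 ⊢
      field_simp
    rw [a7]
    simp only [hE]; ring
  have hHb : Tendsto (fun t => 1 + t * w' t) atTop (𝓝 1) := by
    have := htw'.const_add 1
    rwa [add_zero] at this
  have hHz : Tendsto H atTop (𝓝 0) := by
    have := hEz.mul he
    rwa [zero_mul] at this
  refine ⟨H, mul_mem' hEK hwK, 1, one_ne_zero, ?_⟩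
  refine HasDerivAt.lhopital_zero_atTop hYd hHd ?_ hYz hHz ?_
  · filter_upwards [hb0, hHb.eventually_ne one_ne_zero] with t a1 a2
    exact mul_ne_zero a1 a2
  · have h2 := hYb.div hHb one_ne_zero
    rw [div_one] at h2
    refine h2.congr fun t => ?_
    simp only [Pi.div_apply]
    rw [div_div]

end Pool.Agent.Helper87.RAM
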