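import Pool.Agent.Helper87.RAM.Closure
import Pool.Agent.Helper14.RAM.Upper
import Pool.Agent.Helper64.RAM.CostLower
import Pool.Agent.Helper85.RAM.Run
import Pool.Agent.Helper85.RAM.Zorn

/-!
No bounded number of operations suffices.
-/

open Filter Topology Polynomial Set

namespace Pool.Agent.Helper87.RAM

variable {K L : Subring 𝓖}

theorem opt_nonneg (Pobs Prisk : Set ℂ) (s g : ℂ) : 0 ≤ OPT Pobs Prisk s g := by
  refine Real.sInf_nonneg ?_
  rintro c ⟨T, γ, h, rfl⟩
  exact intervalIntegral.integral_nonneg h.nonneg fun t _ => (Real.exp_pos _).le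

/-- the smallest abscissa of a curve following a polygonal path is that of a vertex -/
theorem follows_re {pts : List ℂ} {T : ℝ} {γ : ℝ → ℂ} (h : Follows pts T γ) {m : ℝ}
    (hm : ∀ P ∈ pts, m ≤ P.re) : ∀ t ∈ Icc 0 T, m ≤ (γ t).re := by
  obtain ⟨hne, τ, hmono, h0, hlast, hv, hseg⟩ := h
  intro t ht
  have hlen : 0 < pts.length := List.length_pos_iff.2 hne
  by_cases h1 : pts.length = 1
  · have hT0 : T = 0 := by rw [← hlast, h1]; exact h0
    have ht0 : t = 0 := le_antisymm (by rw [← hT0]; exact ht.2) ht.1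
    have h2 := hv 0 hlen
    rw [h0, ← ht0] at h2
    rw [h2]
    exact hm _ (List.getElem_mem _)
  -- find the piece
  have hex : ∃ i, i + 1 < pts.length ∧ t ∈ Icc (τ i) (τ (i + 1)) := by
    by_contra hcon
    push Not at hcon
    have hind : ∀ i, i < pts.length → τ i ≤ t := by
      intro i
      induction i with
      | zero => intro _; rw [h0]; exact ht.1
      | succ i ih =>
        intro hi
        have h3 := ih (by omega)
        by_contra h4
        push Not at h4
        exact hcon i hi ⟨h3, h4.le⟩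
    have h5 := hcon (pts.length - 2) (by omega)
    apply h5
    refine ⟨hind _ (by omega), ?_⟩
    have h6 : pts.length - 2 + 1 = pts.length - 1 := by omega
    rw [h6, hlast]
    exact ht.2
  obtain ⟨i, hi, hti⟩ := hex
  have h2 := hseg i hi t hti
  rw [segment_eq_image] at h2
  obtain ⟨l, hl, h3⟩ := h2
  rw [← h3]
  have ha := hm pts[i] (List.getElem_mem _)
  have hb := hm pts[i + 1] (List.getElem_mem _)
  simp only [Complex.add_re, Complex.real_smul, Complex.mul_re, Complex.ofReal_re,
    Complex.ofReal_im, zero_mul, sub_zero]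
  nlinarith [hl.1, hl.2]

theorem follows_mem {pts : List ℂ} {T : ℝ} {γ : ℝ → ℂ} (h : Follows pts T γ) {P : ℂ}
    (hP : P ∈ pts) : ∃ t ∈ Icc 0 T, γ t = P := by
  obtain ⟨hne, τ, hmono, h0, hlast, hv, hseg⟩ := h
  obtain ⟨i, hi, rfl⟩ := List.getElem_of_mem hP
  refine ⟨τ i, ⟨?_, ?_⟩, hv i hi⟩
  · rw [← h0]; exact hmono (Nat.zero_le i)
  · rw [← hlast]; exact hmono (by omega)

/-- the smallest element of a finite list of germs -/
theorem exists_min (hK : IsHardy K) (l : List (ℝ → ℂ)) (hl : l ≠ [])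
    (h : ∀ P ∈ l, gm (fun t => (P t).re) ∈ K) :
    ∃ P ∈ l, ∀ᶠ t in atTop, ∀ Q ∈ l, (P t).re ≤ (Q t).re := by
  induction l with
  | nil => exact absurd rfl hl
  | cons A l ih =>
    by_cases hl' : l = []
    · subst hl'
      refine ⟨A, by simp, Eventually.of_forall fun t Q hQ => ?_⟩
      rw [List.mem_singleton.1 hQ]
    · obtain ⟨P, hP, hmin⟩ := ih hl' fun P hP => h P (List.mem_cons_of_mem _ hP)
      rcases hK.cmp (h P (List.mem_cons_of_mem _ hP)) (h A List.mem_cons_self) with h1 | h1
      · refine ⟨P, List.mem_cons_of_mem _ hP, ?_⟩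
        filter_upwards [hmin, h1] with t h2 h3 Q hQ
        rcases List.mem_cons.1 hQ with rfl | hQ
        · exact h3
        · exact h2 Q hQ
      · refine ⟨A, List.mem_cons_self, ?_⟩
        filter_upwards [hmin, h1] with t h2 h3 Q hQ
        rcases List.mem_cons.1 hQ with rfl | hQ
        · exact le_rfl
        · exact h3.le.trans (h2 Q hQ)

theorem th_pos_aux {z : ℝ} (hz : 0 < z) : 0 < th z := by unfold th; positivity

theorem th_mul_XX_aux (z : ℝ) : th z * XX z = z := by
  unfold th XX
  rw [Real.exp_neg]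
  field_simp

theorem z_th_tendsto : Tendsto (fun z => th z * (1 + z)) atTop (𝓝 0) := by
  have h1 := Real.tendsto_pow_mul_exp_neg_atTop_nhds_zero 1
  have h2 := Real.tendsto_pow_mul_exp_neg_atTop_nhds_zero 2
  have h3 := (h1.const_mul 2).add (h2.const_mul 2)
  simp only [mul_zero, add_zero] at h3
  refine h3.congr fun z => ?_
  unfold th
  ring

/-- the asymptotic analysis of the cost -/
theorem window {C : ℝ} (hC : 0 ≤ C) : ∃ C' : ℝ, ∀ᶠ z in atTop, ∀ (T m : ℝ) (γ : ℝ → ℂ),
    IsTraj ∅ (tri z) (ss z) (gg z) T γ → (∀ t ∈ Icc 0 T, m ≤ (γ t).re) →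
    (∃ t ∈ Icc 0 T, (γ t).re = m) →
    cost ∅ (tri z) T γ ≤ C * OPT ∅ (tri z) (ss z) (gg z) →
    1 / 2 * Real.log z ≤ z - th z * m ∧ z - th z * m ≤ C' * Real.log z := by
  set D : ℝ := 3 * C + (2 * C + 1) + 1 with hD
  have hDpos : 0 < D := by positivity
  refine ⟨D, ?_⟩
  have hlog : Tendsto Real.log atTop atTop := Real.tendsto_log_atTop
  have hth : Tendsto th atTop (𝓝 0) := by
    have h1 := (Real.tendsto_pow_mul_exp_neg_atTop_nhds_zero 1).const_mul 2
    rw [mul_zero] at h1
    refine h1.congr fun z => ?_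
    unfold th; ring
  have hlz : Tendsto (fun z : ℝ => Real.log z / z) atTop (𝓝 0) := by
    have := (isLittleO_log_rpow_atTop (r := 1) one_pos).tendsto_div_nhds_zero
    simpa using this
  have hlz2 : Tendsto (fun z : ℝ => Real.log z / z ^ ((1 : ℝ) / 2)) atTop (𝓝 0) :=
    (isLittleO_log_rpow_atTop (r := 1 / 2) (by norm_num)).tendsto_div_nhds_zero
  filter_upwards [eventually_gt_atTop 1, hlog.eventually_ge_atTop 1,
    hth.eventually_le_const (show (0 : ℝ) < 1 by norm_num),
    z_th_tendsto.eventually_le_const (show (0 : ℝ) < 1 by norm_num),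
    (hlz.const_mul D).eventually_lt_const (show D * 0 < 1 by norm_num),
    (hlz2.const_mul D).eventually_lt_const (show D * 0 < 1 by norm_num)]
    with z hz1 hlz1 hth1 hzth hlzz hlzz2 T m γ hγ hm hm' hcost
  have hz0 : 0 < z := by linarith
  have hθ := th_pos_aux hz0
  have hX := th_mul_XX_aux z
  have hopt := opt_upper hz1.le
  have hopt' : C * OPT ∅ (tri z) (ss z) (gg z) * th z ≤ C * (3 * Real.log z + 2) := by
    rw [mul_assoc]
    refine mul_le_mul_of_nonneg_left (hopt.trans ?_) hC
    nlinarith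
  have hup : cost ∅ (tri z) T γ * th z ≤ C * (3 * Real.log z + 2) :=
    (mul_le_mul_of_nonneg_right hcost hθ.le).trans hopt'
  have hub : C * (3 * Real.log z + 2) + 1 ≤ D * Real.log z := by
    rw [hD]; nlinarith
  have hTX : T < XX z := by
    by_contra hcon
    push Not at hcon
    have h1 := (hcon.trans (length_le_cost hγ))
    have h2 : z ≤ cost ∅ (tri z) T γ * th z := by
      calc z = XX z * th z := by rw [mul_comm, hX]
        _ ≤ _ := mul_le_mul_of_nonneg_right h1 hθ.le
    have h3 : z ≤ D * Real.log z := by linarith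
    have h4 : D * (Real.log z / z) * z = D * Real.log z := by field_simp
    nlinarith
  have hlow := cost_lower hz0 hγ hTX hm hm'
  have hmX : m ≤ XX z := by
    have := hm 0 ⟨le_rfl, hγ.nonneg⟩
    rw [hγ.start] at this
    exact this
  have hU0 : 0 ≤ z - th z * m := by nlinarith
  have h5 := (mul_le_mul_of_nonneg_right hlow hθ.le).trans hup
  have h6 : (2 * (XX z - m) + (Real.exp (th z * m) - 1 - th z * m)) * th z =
      2 * (z - th z * m) + 2 * z * Real.exp (-(z - th z * m)) - th z * (1 + th z * m) := by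
    have h7 : Real.exp (-(z - th z * m)) = Real.exp (-z) * Real.exp (th z * m) := by
      rw [← Real.exp_add]; congr 1; ring
    have h8 : 2 * z * Real.exp (-(z - th z * m)) = th z * Real.exp (th z * m) := by
      rw [h7]; unfold th; ring
    rw [h8]
    linear_combination (2 : ℝ) * hX
  rw [h6] at h5
  have h7 : th z * (1 + th z * m) ≤ 1 := by
    refine le_trans ?_ hzth
    refine mul_le_mul_of_nonneg_left ?_ hθ.le
    linarith
  have h8 : 0 < 2 * z * Real.exp (-(z - th z * m)) := by positivity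
  constructor
  · have h9 : z * Real.exp (-(z - th z * m)) ≤ D * Real.log z := by
      nlinarith
    rw [Real.exp_neg, ← div_eq_mul_inv, div_le_iff₀ (Real.exp_pos _)] at h9
    have h10 : z ^ ((1 : ℝ) / 2) * z ^ ((1 : ℝ) / 2) = z := by
      rw [← Real.rpow_add hz0]; norm_num
    have h11 : 0 < z ^ ((1 : ℝ) / 2) := Real.rpow_pos_of_pos hz0 _
    have h12 : D * Real.log z < z ^ ((1 : ℝ) / 2) := by
      have h13 : D * (Real.log z / z ^ ((1 : ℝ) / 2)) * z ^ ((1 : ℝ) / 2) = D * Real.log z := by
        field_simp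
      nlinarith
    have h14 : z ^ ((1 : ℝ) / 2) ≤ Real.exp (z - th z * m) := by
      by_contra hcon
      push Not at hcon
      have h15 := Real.exp_pos (z - th z * m)
      nlinarith
    have h16 := Real.log_le_log h11 h14
    rw [Real.log_exp, Real.log_rpow hz0] at h16
    exact h16
  · nlinarith

/-- For every real random access machine with arithmetic, comparisons, exponentials and roots,
every factor `C` and every number `N` of steps there is an instance with a single risk triangle
and no obstacle on which the machine fails. -/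
theorem main (M : Machine) (N : ℕ) (ε C : ℝ) :
    ∃ A B D s g : ℂ, AffineIndependent ℝ ![A, B, D] ∧
      s ∈ Xsafe ∅ (convexHull ℝ {A, B, D}) ∧ g ∈ Xsafe ∅ (convexHull ℝ {A, B, D}) ∧
      ¬ Succeeds M N ε C A B D s g := by
  by_contra hcon
  push Not at hcon
  obtain ⟨K, hM⟩ := exists_max_good
  have hK := hM.1
  have hP := hM.2.1
  have hexpz : gm (fun z => Real.exp z) ∈ K := exp_mem hM (fun z => z) hK.id
  have hsucc : ∀ z > 0, Succeeds M N ε C 0 ⟨Real.exp z, 0⟩ ⟨Real.exp z, 2 * z⟩ (ss z) (gg z) :=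
    fun z hz => hcon _ _ _ _ _ (tri_nondegenerate hz) (ss_safe hz) (gg_safe hz)
  set r : ℝ → ℕ → ℝ := fun z => input 0 ⟨Real.exp z, 0⟩ ⟨Real.exp z, 2 * z⟩ (ss z) (gg z) ε
    with hr
  have h2z : gm (fun z => 2 * z) ∈ K := mul_mem' (hK.const 2) hK.id
  have hhalf : gm (fun z => Real.exp z / 2) ∈ K := hK.div_mem hexpz (hK.const 2)
  have hrK : ∀ i, gm (fun z => r z i) ∈ K := by
    intro i
    match i with
    | 0 => exact hK.const 0
    | 1 => exact hK.const 0
    | 2 => exact hexpz
    | 3 => exact hK.const 0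
    | 4 => exact hexpz
    | 5 => exact h2z
    | 6 => exact hhalf
    | 7 => exact hK.const 0
    | 8 => exact hhalf
    | 9 => exact hK.id
    | 10 => exact hK.const ε
    | (i + 11) => exact hK.const 0
  rcases run_germ hK (exp_mem hM) (fun F k hF => nthRoot_mem hM F k hF) M N M.start r hrK with
    h1 | ⟨out, hout, h1⟩
  · obtain ⟨z, h2, h3⟩ := (h1.and (eventually_gt_atTop 0)).exists
    obtain ⟨pts, h4, -⟩ := hsucc z h3
    rw [h2] at h4
    cases h4
  have hne : out ≠ [] := by
    rintro rfl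
    obtain ⟨z, h2, h3⟩ := (h1.and (eventually_gt_atTop 0)).exists
    obtain ⟨pts, h4, T, γ, -, h5, -⟩ := hsucc z h3
    rw [h2] at h4
    exact h5.1 (Option.some.inj h4).symm
  obtain ⟨P, hPout, hmin⟩ := exists_min hK out hne fun P hP => (hout P hP).1
  obtain ⟨C', hwin⟩ := window (abs_nonneg C)
  have hU : gm (fun z => z - th z * (P z).re) ∈ K := by
    refine sub_mem' hK.id (mul_mem' ?_ (hout P hPout).1)
    unfold th
    exact mul_mem' h2z (exp_mem hM (fun z => -z) (neg_mem' hK.id))
  refine gap hK hP hU (C := C') ?_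
  filter_upwards [h1, hmin, hwin, eventually_gt_atTop 0] with z h2 h3 h4 h5
  obtain ⟨pts, h6, T, γ, hγ, hfol, hcost⟩ := hsucc z h5
  rw [h2] at h6
  have hpts := (Option.some.inj h6).symm
  have hmpts : ∀ Q ∈ pts, (P z).re ≤ Q.re := by
    rw [hpts]
    intro Q hQ
    obtain ⟨R, hR, rfl⟩ := List.mem_map.1 hQ
    exact h3 R hR
  have hPpts : P z ∈ pts := by
    rw [hpts]
    exact List.mem_map.2 ⟨P, hPout, rfl⟩
  obtain ⟨t, ht, hPt⟩ := follows_mem hfol hPpts
  refine h4 T (P z).re γ hγ (follows_re hfol hmpts) ⟨t, ht, by rw [hPt]⟩ ?_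
  refine hcost.trans ?_
  exact mul_le_mul_of_nonneg_right (le_abs_self C) (opt_nonneg _ _ _ _)

end Pool.Agent.Helper87.RAM
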