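import Pool.Agent.Helper87.RAM.Alg
import Pool.Agent.Helper87.RAM.Branch

/-!
Maximal Hardy fields without slow elements are real closed (in the form we need).
-/

open Filter Topology Polynomial

namespace Pool.Agent.Helper87.RAM

variable {K L : Subring 𝓖}

/-- maximal among the Hardy fields without slow elements -/
def MaxGood (K : Subring 𝓖) : Prop :=
  IsHardy K ∧ NoSlow K ∧ ∀ L : Subring 𝓖, IsHardy L → NoSlow L → K ≤ L → L ≤ K

instance charZero_subring : CharZero K := by
  refine charZero_of_inj_zero fun n hn => ?_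
  have h1 : ((n : K) : 𝓖) = 0 := by rw [hn]; rfl
  have h2 : ((n : K) : 𝓖) = gm (fun _ => (n : ℝ)) := by
    simp only [Subring.coe_natCast]; rfl
  rw [h2, ← gm_zero, gm_eq] at h1
  obtain ⟨t, ht⟩ := h1.exists
  exact Nat.cast_eq_zero.1 (show (n : ℝ) = 0 from ht)

theorem coe_ne_zero_iff {a : K} : a ≠ 0 ↔ (a : 𝓖) ≠ 0 :=
  ⟨fun h h' => h (Subtype.ext h'), fun h h' => h (by rw [h']; rfl)⟩

theorem eventually_ne_of_unit {p : K[X]} (hp : IsUnit p) :
    ∀ᶠ t in atTop, ∀ x, pe p t x ≠ 0 := by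
  obtain ⟨q, hq⟩ := hp.exists_right_inv
  filter_upwards [pe_mul p q, pe_one (K := K)] with t h1 h2 x h3
  have h4 := h1 x
  rw [hq, h2 x, h3, zero_mul] at h4
  exact one_ne_zero h4

/-- an element of a Hardy field has a limit, so if a power has a nonzero limit, so does it -/
theorem tendsto_of_pow (hL : IsHardy L) {F : ℝ → ℝ} (hF : gm F ∈ L) {n : ℕ} (hn : 1 ≤ n)
    {c : ℝ} (hc : c ≠ 0) (h : Tendsto (fun t => F t ^ n) atTop (𝓝 c)) :
    ∃ d : ℝ, d ≠ 0 ∧ Tendsto F atTop (𝓝 d) := by
  have hn0 : n ≠ 0 := by omega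
  have habs : Tendsto (fun t => |F t| ^ n) atTop (𝓝 |c|) := by
    have := h.abs
    simpa [abs_pow] using this
  have hno : ¬ Tendsto (fun t => |F t|) atTop atTop := fun h1 =>
    not_tendsto_nhds_of_tendsto_atTop ((tendsto_pow_atTop hn0).comp h1) _ habs
  rcases hL.lim hF with h1 | h1 | ⟨d, h1⟩
  · exact absurd (tendsto_abs_atTop_atTop.comp h1) hno
  · exact absurd (tendsto_abs_atBot_atTop.comp h1) hno
  · refine ⟨d, ?_, h1⟩
    rintro rfl
    have h2 := h1.pow n
    rw [zero_pow hn0] at h2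
    exact hc (tendsto_nhds_unique h h2)

/-- slow elements of an extension are free -/
theorem free_of_slow (hP : NoSlow K) (hL : IsHardy L) (hKL : K ≤ L)
    {F : ℝ → ℝ} (hF : gm F ∈ L)
    (hslow : Tendsto (fun t => t * logDeriv F t) atTop (𝓝 0))
    (hno : ¬ ∃ c : ℝ, c ≠ 0 ∧ Tendsto F atTop (𝓝 c)) : Free K F := by
  intro n hn A hA hsim
  have h1 := hL.sim_logDeriv (pow_mem' hF n) (hKL hA) hsim
  have h2 : Tendsto (fun t => t * logDeriv (fun t => F t ^ n) t) atTop (𝓝 0) := by
    have h3 := hslow.const_mul (n : ℝ)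
    rw [mul_zero] at h3
    refine h3.congr' ?_
    filter_upwards [hL.diff hF] with t ht
    have h4 : logDeriv (fun t => F t ^ n) t = n * logDeriv F t := logDeriv_fun_pow ht n
    rw [h4]; ring
  have h5 : Tendsto (fun t => t * logDeriv A t) atTop (𝓝 0) := by
    have h6 := h2.sub h1
    rw [sub_zero] at h6
    refine h6.congr fun t => ?_
    ring
  obtain ⟨c, hc, h7⟩ := hP A hA hsim.ne_zero_right h5
  obtain ⟨d, hd, h8⟩ := hsim.tendsto_const hc h7
  exact hno (tendsto_of_pow hL hF hn hd h8)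

/-- algebraic extensions have no slow elements -/
theorem noSlow_of_algebraic (hK : IsHardy K) (hP : NoSlow K) (hL : IsHardy L) (hKL : K ≤ L)
    (halg : ∀ f ∈ L, ∃ q : K[X], q ≠ 0 ∧ aeval f q = 0) : NoSlow L := by
  intro F hF hF0 hslow
  by_contra hno
  have hfree := free_of_slow hP hL hKL hF hslow hno
  obtain ⟨q, hq0, hq⟩ := halg _ hF
  obtain ⟨A, m, -, -, h⟩ := dominant hL hK hKL hF hF0 hfree q hq0
  have h1 := h (fun _ => 0) (by rw [hq]; rfl)
  obtain ⟨t, ht⟩ := h1.ne_zero_left.exists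
  exact ht rfl

/-- roots of irreducible monic polynomials -/
theorem root_mem_irreducible (hM : MaxGood K) {p : K[X]} (hirr : Irreducible p)
    (hmonic : p.Monic) (hfr : ∃ᶠ t in atTop, ∃ x, pe p t x = 0) : ∃ b : K, p.IsRoot b := by
  obtain ⟨hK, hP, hmax⟩ := hM
  let _ := hK.field
  obtain ⟨a, b, hab⟩ : IsCoprime p (derivative p) := hirr.separable
  have hbez : ∀ᶠ t in atTop, ∀ x, pe a t x * pe p t x + pe b t x * pe (derivative p) t x = 1 := by
    filter_upwards [pe_mul a p, pe_mul b (derivative p), pe_add (a * p) (b * derivative p),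
      pe_one (K := K)] with t h1 h2 h3 h4 x
    rw [← h1, ← h2, ← h3, hab, h4]
  -- derivatives of the coefficients
  have hcoef : ∀ i : ℕ, ∃ D : ℝ → ℝ, gm D ∈ K ∧
      ∀ᶠ t in atTop, HasDerivAt (rep (p.coeff i : 𝓖)) (D t) t := by
    intro i
    refine hK.exists_der ?_
    rw [gm_rep]; exact (p.coeff i).2
  choose D hDK hD using hcoef
  have hD' : ∀ᶠ t in atTop, ∀ i ∈ p.support, HasDerivAt (rep (p.coeff i : 𝓖)) (D i t) t :=
    (Finset.eventually_all _).2 fun i _ => hD i
  obtain ⟨T, hT⟩ := eventually_atTop.1 (hbez.and (hD'.and ((pe_hasDerivAt p).and (pe_monic hmonic))))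
  have hsimple : ∀ t ≥ T, ∀ x, pe p t x = 0 → pe (derivative p) t x ≠ 0 := by
    intro t ht x h1 h2
    have h3 := (hT t ht).1 x
    rw [h1, h2, mul_zero, mul_zero, add_zero] at h3
    exact zero_ne_one h3
  obtain ⟨t₀, ⟨x₀, h₀⟩, ht₀⟩ := (hfr.and_eventually (eventually_gt_atTop T)).exists
  obtain ⟨y, hy⟩ := exists_branch (P := pe p) (T := T) (by
      intro t ht x
      unfold pe
      refine tendsto_finsetSum _ fun i hi => ?_
      have h1 : ContinuousAt (rep (p.coeff i : 𝓖)) t := ((hT t ht.le).2.1 i hi).continuousAt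
      have h2 : ContinuousAt (fun z : ℝ × ℝ => rep (p.coeff i : 𝓖) z.1) (t, x) :=
        ContinuousAt.comp (g := rep (p.coeff i : 𝓖)) (f := fun z : ℝ × ℝ => z.1) (x := (t, x))
          h1 continuousAt_fst
      exact h2.mul (continuousAt_snd.pow i))
    (by
      intro t ht
      set S : ℝ → ℝ := fun s => ∑ i ∈ p.support.erase p.natDegree, |rep (p.coeff i : 𝓖) s| with hS
      have hSc : ContinuousAt S t := by
        refine tendsto_finsetSum _ fun i hi => ?_
        exact (((hT t ht.le).2.1 i (Finset.mem_of_mem_erase hi)).continuousAt).abs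
      refine ⟨max 1 (S t + 1), ?_⟩
      filter_upwards [hSc.eventually_lt_const (show S t < S t + 1 by linarith),
        Ioi_mem_nhds ht] with s h1 h2 x h3
      by_contra hcon
      push Not at hcon
      have hx1 : 1 < |x| := lt_of_le_of_lt (le_max_left _ _) hcon
      have hx2 : S s < |x| := h1.trans (lt_of_le_of_lt (le_max_right _ _) hcon)
      have h4 := (hT s (le_of_lt h2)).2.2.2 x
      rw [h3] at h4
      have hn : 0 < p.natDegree := hirr.natDegree_pos
      have h5 : |x| ^ p.natDegree ≤ S s * |x| ^ (p.natDegree - 1) := by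
        have h6 : x ^ p.natDegree = - ∑ i ∈ p.support.erase p.natDegree,
          rep (p.coeff i : 𝓖) s * x ^ i := by linarith
        rw [← abs_pow, h6, abs_neg, hS]
        refine (Finset.abs_sum_le_sum_abs _ _).trans ?_
        rw [Finset.sum_mul]
        refine Finset.sum_le_sum fun i hi => ?_
        rw [abs_mul, abs_pow]
        refine mul_le_mul_of_nonneg_left ?_ (abs_nonneg _)
        refine pow_le_pow_right₀ hx1.le ?_
        have h7 := Finset.mem_erase.1 hi
        have h8 := le_natDegree_of_mem_supp i h7.2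
        omega
      have h9 : |x| ^ p.natDegree = |x| * |x| ^ (p.natDegree - 1) := by
        rw [← pow_succ']; congr 1; omega
      rw [h9] at h5
      have h10 : 0 < |x| ^ (p.natDegree - 1) := pow_pos (by linarith) _
      have h11 := le_of_mul_le_mul_right h5 h10
      linarith)
    (by
      intro t ht x hx ε hε
      exact sign_change ((hT t ht.le).2.2.1 x) hx (hsimple t ht.le x hx) hε)
    ht₀ h₀
  -- the derivative of the branch
  set pt : ℝ → ℝ := fun t => ∑ i ∈ p.support, D i t * y t ^ i with hpt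
  have hyd : ∀ t > T, HasDerivAt y (-pt t / pe (derivative p) t (y t)) t := by
    intro t ht
    refine branch_hasDerivAt (P := pe p) (hy t ht).2 ?_ ((hT t ht.le).2.2.1 (y t))
      (hsimple t ht.le _ (hy t ht).1) ?_
    · filter_upwards [Ioi_mem_nhds ht] with s hs using (hy s hs).1
    · have h1 : ∀ s, (pe p s (y s) - pe p t (y s)) / (s - t) = ∑ i ∈ p.support,
          (slope (rep (p.coeff i : 𝓖)) t s) * y s ^ i := by
        intro s
        unfold pe
        rw [← Finset.sum_sub_distrib, Finset.sum_div]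
        refine Finset.sum_congr rfl fun i _ => ?_
        rw [slope_def_field]
        ring
      simp only [h1]
      refine tendsto_finsetSum _ fun i hi => ?_
      refine (hasDerivAt_iff_tendsto_slope.1 ((hT t ht.le).2.1 i hi)).mul ?_
      exact (((hy t ht).2.pow i).tendsto).mono_left nhdsWithin_le_nhds
  have hroot : aeval (gm y) p = 0 := by
    rw [aeval_pe, ← gm_zero, gm_eq]
    filter_upwards [eventually_gt_atTop T] with t ht using (hy t ht).1
  -- the extension
  set L : Subring 𝓖 := Adj K (gm y) with hLdef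
  have hKL : K ≤ L := le_adj _
  have hyL : gm y ∈ L := self_mem_adj _
  have hpx : aeval (gm y) b * aeval (gm y) (derivative p) = 1 := by
    have h1 := congrArg (aeval (gm y)) hab
    rw [map_add, map_mul, map_mul, hroot, mul_zero, zero_add, map_one] at h1
    exact h1
  have hyder : HasDer (gm y) L := by
    refine ⟨y, fun t => - pt t * pe b t (y t), rfl, ?_, ?_⟩
    · refine mul_mem' (neg_mem' ?_) ?_
      · rw [hpt, gm_sum]
        exact L.sum_mem fun i _ => mul_mem' (hKL (hDK i)) (pow_mem' hyL i)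
      · rw [← aeval_pe]
        exact ⟨b, rfl⟩
    · have h1 : ∀ᶠ t in atTop, pe b t (y t) * pe (derivative p) t (y t) = 1 := by
        rw [aeval_pe, aeval_pe, ← gm_mul, ← gm_one, gm_eq] at hpx
        exact hpx
      filter_upwards [eventually_gt_atTop T, h1] with t ht h2
      refine (hyd t ht).congr_deriv ?_
      have h3 : pe (derivative p) t (y t) ≠ 0 := by
        intro h4; rw [h4, mul_zero] at h2; exact zero_ne_one h2
      rw [div_eq_iff h3, mul_assoc, h2, mul_one]
  have hL : IsHardy L := by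
    refine ⟨fun c => hKL (hK.const c), hKL hK.id, ?_, ?_⟩
    · rintro f ⟨q, rfl⟩ hf
      have hndvd : ¬ p ∣ q := by
        rintro ⟨r, rfl⟩
        apply hf
        change aeval (gm y) (p * r) = 0
        rw [map_mul, hroot, zero_mul]
      obtain ⟨c, d, hcd⟩ := (hirr.coprime_iff_not_dvd).2 hndvd
      refine ⟨aeval (gm y) d, ⟨d, rfl⟩, ?_⟩
      have h1 := congrArg (aeval (gm y)) hcd
      rw [map_add, map_mul, map_mul, hroot, mul_zero, zero_add, map_one] at h1
      change aeval (gm y) q * aeval (gm y) d = 1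
      rw [mul_comm]; exact h1
    · rintro f ⟨q, rfl⟩
      exact (hasDer_aeval hK hKL hyL hyder q).1
  have hint : IsIntegral K (gm y) := ⟨p, hmonic, by rw [← aeval_def]; exact hroot⟩
  have hLP : NoSlow L := by
    refine noSlow_of_algebraic hK hP hL hKL ?_
    rintro f ⟨q, rfl⟩
    have h1 : IsIntegral K (aeval (gm y) q) := by
      have h3 : Algebra.adjoin K {gm y} ≤ integralClosure K 𝓖 :=
        Algebra.adjoin_le (by
          rw [Set.singleton_subset_iff]; exact hint)
      exact h3 (aeval_mem_adjoin_singleton K (gm y))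
    obtain ⟨r, hr, hr'⟩ := h1
    exact ⟨r, hr.ne_zero, hr'⟩
  have hle := hmax L hL hLP hKL
  refine ⟨⟨gm y, hle hyL⟩, ?_⟩
  rw [IsRoot.def]
  apply Subtype.ext
  have h1 : ((eval (⟨gm y, hle hyL⟩ : K) p : K) : 𝓖) = aeval (gm y) p := by
    have h2 := aeval_algebraMap_apply 𝓖 (⟨gm y, hle hyL⟩ : K) p
    rw [coe_aeval_eq_eval] at h2
    exact h2.symm
  rw [h1, hroot]
  rfl

/-- maximal Hardy fields without slow elements contain roots of the polynomials over them which
have real zeros pointwise -/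
theorem root_mem (hM : MaxGood K) (p : K[X]) (hp : p ≠ 0)
    (hfr : ∃ᶠ t in atTop, ∃ x, pe p t x = 0) : ∃ b : K, p.IsRoot b := by
  have hK := hM.1
  let _ := hK.field
  induction p using WfDvdMonoid.induction_on_irreducible with
  | zero => exact absurd rfl hp
  | unit u hu =>
    obtain ⟨t, ⟨x, h1⟩, h2⟩ := (hfr.and_eventually (eventually_ne_of_unit hu)).exists
    exact absurd h1 (h2 x)
  | mul a i ha hi ih =>
    have h1 : ∃ᶠ t in atTop, (∃ x, pe i t x = 0) ∨ ∃ x, pe a t x = 0 := by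
      refine (hfr.and_eventually (pe_mul i a)).mono ?_
      rintro t ⟨⟨x, h2⟩, h3⟩
      rw [h3 x, mul_eq_zero] at h2
      exact h2.imp (fun h => ⟨x, h⟩) (fun h => ⟨x, h⟩)
    rcases frequently_or_distrib.1 h1 with h2 | h2
    · have h3 : Irreducible (i * C (leadingCoeff i)⁻¹) := irreducible_mul_leadingCoeff_inv.2 hi
      have h4 : (i * C (leadingCoeff i)⁻¹).Monic := monic_mul_leadingCoeff_inv hi.ne_zero
      obtain ⟨b, hb⟩ := root_mem_irreducible hM h3 h4 (by
        refine (h2.and_eventually (pe_mul i (C (leadingCoeff i)⁻¹))).mono ?_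
        rintro t ⟨⟨x, h5⟩, h6⟩
        exact ⟨x, by rw [h6 x, h5, zero_mul]⟩)
      refine ⟨b, ?_⟩
      rw [IsRoot.def, eval_mul, eval_C] at hb
      rcases mul_eq_zero.1 hb with h5 | h5
      · rw [IsRoot.def, eval_mul, h5, zero_mul]
      · exact absurd h5 (inv_ne_zero (leadingCoeff_ne_zero.2 hi.ne_zero))
    · obtain ⟨b, hb⟩ := ih ha h2
      exact ⟨b, by rw [IsRoot.def, eval_mul, IsRoot.def.1 hb, mul_zero]⟩

theorem IsHardy.abs_mem (hK : IsHardy K) {F : ℝ → ℝ} (hF : gm F ∈ K) :
    gm (fun t => |F t|) ∈ K := by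
  rcases hK.sign hF with h | h | h
  · exact mem_congr (h.mono fun t ht => by simp only [ht, abs_zero]) (hK.const 0)
  · exact mem_congr (h.mono fun t ht => (abs_of_pos ht).symm) hF
  · exact mem_congr (h.mono fun t ht => (abs_of_neg ht).symm) (neg_mem' hF)

theorem nthRoot_mem (hM : MaxGood K) (F : ℝ → ℝ) (k : ℕ) (hF : gm F ∈ K) :
    gm (fun t => |F t| ^ ((k + 1 : ℝ)⁻¹)) ∈ K := by
  have hK := hM.1
  have hG := hK.abs_mem hF
  have hk : (k : ℝ) + 1 ≠ 0 := by positivity
  set p : K[X] := X ^ (k + 1) - C ⟨gm (fun t => |F t|), hG⟩ with hp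
  have hnt : Nontrivial K := ⟨0, 1, fun h => by
    have h1 : (0 : 𝓖) = 1 := congrArg Subtype.val h
    rw [← gm_zero, ← gm_one, gm_eq] at h1
    obtain ⟨t, ht⟩ := h1.exists
    exact zero_ne_one ht⟩
  have hp0 : p ≠ 0 := (monic_X_pow_sub_C _ (Nat.succ_ne_zero k)).ne_zero
  have hpe : ∀ Y : ℝ → ℝ, aeval (gm Y) p = gm (fun t => Y t ^ (k + 1) - |F t|) := by
    intro Y
    rw [hp, map_sub, map_pow, aeval_X, aeval_C]
    rfl
  have h1 : ∀ᶠ t in atTop, ∀ x, pe p t x = x ^ (k + 1) - |F t| := by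
    refine eventually_forall_of fun Y => ?_
    have h2 := hpe Y
    rw [aeval_pe, gm_eq] at h2
    exact h2
  have hpow : ∀ t, (|F t| ^ ((k + 1 : ℝ)⁻¹)) ^ (k + 1) = |F t| := by
    intro t
    have h3 := Real.rpow_inv_natCast_pow (abs_nonneg (F t)) (Nat.succ_ne_zero k)
    push_cast at h3
    exact h3
  obtain ⟨b, hb⟩ := root_mem hM p hp0 (Eventually.frequently (by
    filter_upwards [h1] with t ht
    exact ⟨|F t| ^ ((k + 1 : ℝ)⁻¹), by rw [ht, hpow, sub_self]⟩))
  have hbK : gm (rep (b : 𝓖)) ∈ K := by rw [gm_rep]; exact b.2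
  have h4 : ∀ᶠ t in atTop, rep (b : 𝓖) t ^ (k + 1) = |F t| := by
    have h5 : aeval (gm (rep (b : 𝓖))) p = 0 := by
      rw [gm_rep]
      have h6 := aeval_algebraMap_apply 𝓖 b p
      rw [coe_aeval_eq_eval, IsRoot.def.1 hb, map_zero] at h6
      exact h6
    rw [hpe, ← gm_zero, gm_eq] at h5
    filter_upwards [h5] with t ht
    exact sub_eq_zero.1 ht
  refine mem_congr ?_ (hK.abs_mem hbK)
  filter_upwards [h4] with t ht
  have h8 : |F t| = |rep (b : 𝓖) t| ^ (k + 1) := by rw [← abs_pow, ht, abs_abs]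
  rw [h8]
  have h7 := Real.pow_rpow_inv_natCast (abs_nonneg (rep (b : 𝓖) t)) (Nat.succ_ne_zero k)
  push_cast at h7
  exact h7.symm

end Pool.Agent.Helper87.RAM
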